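import Pool.Agent.W_448so_h63.GK

/-!
MP_448cb3_co, G2, case B, window `j`: the decomposition of the window series by the set of the
labels which are touched by an excited cross element.  helper10.
-/

namespace Pool.Agent.GaussPoset.Win.K2

set_option linter.unusedSectionVars false

open Finset

universe u

variable {P : Type u} [Fintype P] [PartialOrder P] [DecidableEq P] {r i l : ℕ}

/-- the series of the configurations on `C` with the property `Q` -/
noncomputable def ZQ (i : ℕ) (C : Finset P) (Q : (P → ℕ) → Prop) : PowerSeries A := by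
  classical
  exact PowerSeries.mk (fun n => ∑ e ∈ (C.piAntidiag n).filter Q, tC i C e)

open Classical in
lemma coeff_ZQ (i : ℕ) (C : Finset P) (Q : (P → ℕ) → Prop) (n : ℕ) :
    PowerSeries.coeff n (ZQ i C Q) = ∑ e ∈ (C.piAntidiag n).filter Q, tC i C e := by
  unfold ZQ
  rw [PowerSeries.coeff_mk]

lemma ZQ_true (i : ℕ) (C : Finset P) (Q : (P → ℕ) → Prop) (h : ∀ e, Q e) :
    ZQ i C Q = ZS i C := by
  classical
  ext1 n
  rw [coeff_ZQ, coeff_ZS]
  unfold ZC
  rw [filter_true_of_mem (fun e _ => h e)]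

lemma mem_pa' {C : Finset P} {n : ℕ} {e : P → ℕ} :
    e ∈ C.piAntidiag n ↔ ∑ x, e x = n ∧ Spt C e := I2.mem_pa

/-- factorisation with a property of the first part -/
theorem ZQ_union (H : Gr P r) (hir : i ≤ r) {C D : Finset P} (hC : Part i C) (hD : Part i D)
    (hCD : Disjoint C D) (Q : (P → ℕ) → Prop) :
    ZQ i (C ∪ D) (fun g => Q (rst C g)) = ZQ i C Q * ZS i D := by
  classical
  ext1 n
  rw [coeff_ZQ, PowerSeries.coeff_mul]
  simp only [coeff_ZQ, coeff_ZS]
  have h1 : ∑ p ∈ antidiagonal n, (∑ e ∈ (C.piAntidiag p.1).filter Q, tC i C e) * ZC i D p.2 =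
      ∑ q ∈ (antidiagonal n).sigma (fun p => (C.piAntidiag p.1).filter Q ×ˢ D.piAntidiag p.2),
        tC i C q.2.1 * tC i D q.2.2 := by
    rw [Finset.sum_sigma]
    refine Finset.sum_congr rfl fun p _ => ?_
    unfold ZC
    rw [Finset.sum_mul_sum, ← Finset.sum_product']
  rw [h1]
  refine Finset.sum_bij'
    (i := fun g _ => (⟨(C.sum g, D.sum g), (rst C g, rst D g)⟩ :
      Σ _ : ℕ × ℕ, (P → ℕ) × (P → ℕ)))
    (j := fun q _ => q.2.1 + q.2.2) ?_ ?_ ?_ ?_ ?_
  · intro g hg
    rw [mem_filter] at hg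
    obtain ⟨hg, hq⟩ := hg
    have hs := spt_of_mem hg
    rw [mem_piAntidiag] at hg
    rw [mem_sigma]
    refine ⟨?_, ?_⟩
    · rw [Finset.HasAntidiagonal.mem_antidiagonal]
      simp only
      rw [← Finset.sum_union hCD]
      exact hg.1
    · rw [mem_product, mem_filter, mem_piAntidiag, mem_piAntidiag]
      refine ⟨⟨⟨rst_sum C g, fun x hx => ?_⟩, hq⟩, ⟨rst_sum D g, fun x hx => ?_⟩⟩
      · by_contra h; exact hx (rst_spt C g x h)
      · by_contra h; exact hx (rst_spt D g x h)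
  · rintro ⟨⟨a, b⟩, ⟨e, f⟩⟩ hq
    rw [mem_sigma, mem_product, mem_filter] at hq
    simp only at hq
    obtain ⟨hab, ⟨he, hqe⟩, hf⟩ := hq
    have hse := spt_of_mem he
    have hsf := spt_of_mem hf
    rw [mem_piAntidiag] at he hf
    rw [Finset.HasAntidiagonal.mem_antidiagonal] at hab
    rw [mem_filter, mem_piAntidiag]
    simp only
    refine ⟨⟨?_, ?_⟩, ?_⟩
    · have h2 := sum_zero_of hCD hse
      have h3 := sum_zero_of hCD.symm hsf
      have h4 : C.sum (e + f) = a := by
        have : C.sum (e + f) = C.sum e + C.sum f := by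
          rw [← Finset.sum_add_distrib]; rfl
        rw [this, he.1, h3, add_zero]
      have h5 : D.sum (e + f) = b := by
        have : D.sum (e + f) = D.sum e + D.sum f := by
          rw [← Finset.sum_add_distrib]; rfl
        rw [this, hf.1, h2, zero_add]
      rw [Finset.sum_union hCD, h4, h5]
      exact hab
    · intro x hx
      by_contra h
      exact hx ((hse.add hsf) x h)
    · rw [rst_left hCD hse hsf]
      exact hqe
  · intro g hg
    exact rst_add_rst hCD (spt_of_mem (mem_filter.1 hg).1)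
  · rintro ⟨⟨a, b⟩, ⟨e, f⟩⟩ hq
    rw [mem_sigma, mem_product, mem_filter] at hq
    simp only at hq
    obtain ⟨hab, ⟨he, hqe⟩, hf⟩ := hq
    have hse := spt_of_mem he
    have hsf := spt_of_mem hf
    rw [mem_piAntidiag] at he hf
    have h2 := sum_zero_of hCD hse
    have h3 := sum_zero_of hCD.symm hsf
    have h4 : C.sum (e + f) = a := by
      have : C.sum (e + f) = C.sum e + C.sum f := by
        rw [← Finset.sum_add_distrib]; rfl
      rw [this, he.1, h3, add_zero]
    have h5 : D.sum (e + f) = b := by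
      have : D.sum (e + f) = D.sum e + D.sum f := by
        rw [← Finset.sum_add_distrib]; rfl
      rw [this, hf.1, h2, zero_add]
    have h6 : rst C (e + f) = e := rst_left hCD hse hsf
    have h7 : rst D (e + f) = f := by
      rw [add_comm e f]
      exact rst_left hCD.symm hsf hse
    simp only [h4, h5, h6, h7]
  · intro g hg
    have hs := spt_of_mem (mem_filter.1 hg).1
    simp only
    rw [← tC_add H hir hC hD hCD (rst_spt C g) (rst_spt D g), rst_add_rst hCD hs]

variable {ι : Type*} [DecidableEq ι] {κ : P → ι}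

open Classical in
/-- the elements which are below the components with a label in `T` only -/
noncomputable def eT (l : ℕ) (κ : P → ι) (T : Finset ι) : Finset P :=
  univ.filter (fun x => ∀ y, x ≤ y → lev y ≤ l → κ y ∈ T)

lemma mem_eT {T : Finset ι} {x : P} :
    x ∈ eT l κ T ↔ ∀ y, x ≤ y → lev y ≤ l → κ y ∈ T := by
  classical
  unfold eT
  rw [mem_filter]
  exact ⟨fun h => h.2, fun h => ⟨mem_univ x, h⟩⟩

lemma mem_eT_of_le (hκ : Split l κ) {T : Finset ι} {x : P} (hx : lev x ≤ l) (h : κ x ∈ T) :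
    x ∈ eT l κ T := by
  rw [mem_eT]
  intro y hy _
  rw [← hκ.le x hy hx]
  exact h

theorem part_eT (H : Gr P r) (hil : i ≤ l) (hκ : Split l κ) (T : Finset ι) :
    Part i (eT l κ T) where
  up := by
    intro x y hx hxy
    rw [mem_eT] at hx ⊢
    exact fun w hw hl => hx w (hxy.le.trans hw) hl
  dn := by
    intro x y hy hl hxy
    have h1 := lev_uc H (mem_uc.2 hxy)
    rw [mem_eT] at hy
    refine mem_eT_of_le hκ (by omega) ?_
    rw [hκ hxy (by omega)]
    exact hy y le_rfl (by omega)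

lemma eT_mono {T U : Finset ι} (h : T ⊆ U) : eT l κ T ⊆ eT l κ U := by
  intro x hx
  rw [mem_eT] at hx ⊢
  exact fun y hy hl => h (hx y hy hl)

lemma cext_sub_eT {T : Finset ι} {a : ι} (h : a ∈ T) : cext l κ a ⊆ eT l κ T := by
  intro x hx
  rw [mem_eT]
  intro y hy hl
  rw [mem_cext.1 hx y hy hl]
  exact h

lemma disj_eT_cext {T : Finset ι} {a : ι} (h : a ∉ T) : Disjoint (eT l κ T) (cext l κ a) := by
  rw [disjoint_left]
  intro x hx hx'
  obtain ⟨y, hy, hy0⟩ := exists_top x
  have h1 := mem_eT.1 hx y hy (by omega)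
  rw [mem_cext.1 hx' y hy (by omega)] at h1
  exact h h1

lemma eT_univ (l : ℕ) (κ : P → ι) : eT l κ (univ.image κ) = univ := by
  ext x
  refine ⟨fun _ => mem_univ x, fun _ => ?_⟩
  rw [mem_eT]
  intro y _ _
  exact mem_image_of_mem κ (mem_univ y)

open Classical in
/-- the labels which are touched by an excited cross element -/
noncomputable def Tch (l : ℕ) (κ : P → ι) (e : P → ℕ) : Finset ι :=
  (univ.image κ).filter (fun a => ∃ z, 1 ≤ e z ∧ z ∉ cuni l κ ∧ ∃ y, z ≤ y ∧ lev y ≤ l ∧ κ y = a)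

lemma mem_Tch {e : P → ℕ} {a : ι} : a ∈ Tch l κ e ↔
    ∃ z, 1 ≤ e z ∧ z ∉ cuni l κ ∧ ∃ y, z ≤ y ∧ lev y ≤ l ∧ κ y = a := by
  classical
  unfold Tch
  rw [mem_filter]
  refine ⟨fun h => h.2, fun h => ⟨?_, h⟩⟩
  obtain ⟨z, -, -, y, -, -, rfl⟩ := h
  exact mem_image_of_mem κ (mem_univ y)

/-- an excited cross element lies below touched labels only -/
lemma mem_eT_Tch {e : P → ℕ} {z : P} (h1 : 1 ≤ e z) (hz : z ∉ cuni l κ) :
    z ∈ eT l κ (Tch l κ e) := by
  rw [mem_eT]
  intro y hy hl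
  rw [mem_Tch]
  exact ⟨z, h1, hz, y, hy, hl, rfl⟩

lemma Tch_congr {e f : P → ℕ} (h : ∀ z, z ∉ cuni l κ → e z = f z) : Tch l κ e = Tch l κ f := by
  ext a
  rw [mem_Tch, mem_Tch]
  constructor
  · rintro ⟨z, h1, h2, h3⟩
    exact ⟨z, by rw [← h z h2]; exact h1, h2, h3⟩
  · rintro ⟨z, h1, h2, h3⟩
    exact ⟨z, by rw [h z h2]; exact h1, h2, h3⟩

/-- the union of the components with a label in `U` which is not in `T` -/
noncomputable def rU (l : ℕ) (κ : P → ι) (U T : Finset ι) : Finset P :=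
  (U \ T).biUnion (cext l κ)

lemma rU_sub_cuni {U T : Finset ι} (hU : U ⊆ univ.image κ) : rU l κ U T ⊆ cuni l κ := by
  intro x hx
  unfold rU at hx
  rw [mem_biUnion] at hx
  obtain ⟨a, ha, hxa⟩ := hx
  unfold cuni
  rw [mem_biUnion]
  exact ⟨a, hU (mem_sdiff.1 ha).1, hxa⟩

lemma disj_rU {U T : Finset ι} : Disjoint (eT l κ T) (rU l κ U T) := by
  unfold rU
  rw [disjoint_biUnion_right]
  intro a ha
  exact disj_eT_cext (mem_sdiff.1 ha).2

lemma part_rU (H : Gr P r) (hil : i ≤ l) (hκ : Split l κ) (U T : Finset ι) :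
    Part i (rU l κ U T) :=
  Part.biUnion _ _ fun a _ => part_cext H hil hκ a

lemma ZS_rU (H : Gr P r) (hir : i ≤ r) (hil : i ≤ l) (hκ : Split l κ) (U T : Finset ι) :
    ZS i (rU l κ U T) = ∏ a ∈ U \ T, ZS i (cext l κ a) :=
  ZS_biUnion H hir _ _ (fun a _ => part_cext H hil hκ a) (fun _ _ _ _ h => disj_cext h)

/-- the sites of `eT U` -/
lemma st_eT (hil : i ≤ l) (hκ : Split l κ) {U T : Finset ι} (hT : T ⊆ U) :
    st i (eT l κ T ∪ rU l κ U T) = st i (eT l κ U) := by
  ext v
  rw [mem_st, mem_st, mem_union]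
  constructor
  · rintro ⟨h1 | h1, h2⟩
    · exact ⟨eT_mono hT h1, h2⟩
    · refine ⟨?_, h2⟩
      unfold rU at h1
      rw [mem_biUnion] at h1
      obtain ⟨a, ha, hxa⟩ := h1
      exact cext_sub_eT (mem_sdiff.1 ha).1 hxa
  · rintro ⟨h1, h2⟩
    refine ⟨?_, h2⟩
    have h3 := mem_eT.1 h1 v le_rfl (by omega)
    by_cases h4 : κ v ∈ T
    · left
      exact mem_eT_of_le hκ (by omega) h4
    · right
      unfold rU
      rw [mem_biUnion]
      exact ⟨κ v, mem_sdiff.2 ⟨h3, h4⟩, mem_cext_of_le hκ (by omega) rfl⟩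

lemma tC_congr_st {C D : Finset P} (h : st i C = st i D) (e : P → ℕ) : tC i C e = tC i D e := by
  unfold tC
  rw [h]

/-- the restriction to the touched labels keeps the cross elements -/
lemma rst_cross {e : P → ℕ} {T : Finset ι} (h : Tch l κ e = T) {z : P} (hz : z ∉ cuni l κ) :
    rst (eT l κ T) e z = e z := by
  unfold rst
  by_cases h1 : 1 ≤ e z
  · rw [if_pos]
    rw [← h]
    exact mem_eT_Tch h1 hz
  · split_ifs
    · rfl
    · omega

/-- the configurations with the touched labels `T` -/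
lemma touch_iff {U T : Finset ι} (hU : U ⊆ univ.image κ)
    (hT : T ⊆ U) {Q : (P → ℕ) → Prop}
    (hQ : ∀ e f : P → ℕ, (∀ z, z ∉ cuni l κ → e z = f z) → (Q e ↔ Q f)) {e : P → ℕ} :
    (Spt (eT l κ U) e ∧ Q e ∧ Tch l κ e = T) ↔
      (Spt (eT l κ T ∪ rU l κ U T) e ∧ (Tch l κ (rst (eT l κ T) e) = T ∧
        Q (rst (eT l κ T) e))) := by
  constructor
  · rintro ⟨hs, hq, ht⟩
    have h1 : ∀ z, z ∉ cuni l κ → rst (eT l κ T) e z = e z := fun z hz => rst_cross ht hz
    refine ⟨?_, ?_, ?_⟩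
    · intro x hx
      by_contra h0
      apply hx
      rw [mem_union]
      have hxU : x ∈ eT l κ U := by
        by_contra h2
        exact h0 (hs x h2)
      by_cases h3 : x ∈ cuni l κ
      · unfold cuni at h3
        rw [mem_biUnion] at h3
        obtain ⟨a, -, ha⟩ := h3
        obtain ⟨y, hy, hy0⟩ := exists_top x
        have h4 : a ∈ U := by
          have h5 := mem_eT.1 hxU y hy (by omega)
          rw [mem_cext.1 ha y hy (by omega)] at h5
          exact h5
        by_cases h5 : a ∈ T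
        · left
          exact cext_sub_eT h5 ha
        · right
          unfold rU
          rw [mem_biUnion]
          exact ⟨a, mem_sdiff.2 ⟨h4, h5⟩, ha⟩
      · left
        rw [← ht]
        exact mem_eT_Tch (by omega) h3
    · rw [Tch_congr h1]
      exact ht
    · exact (hQ _ _ h1).2 hq
  · rintro ⟨hs, ht, hq⟩
    have h1 : ∀ z, z ∉ cuni l κ → rst (eT l κ T) e z = e z := by
      intro z hz
      unfold rst
      split_ifs with h2
      · rfl
      · symm
        apply hs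
        rw [mem_union]
        rintro (h3 | h3)
        · exact h2 h3
        · exact hz (rU_sub_cuni hU h3)
    refine ⟨?_, ?_, ?_⟩
    · intro x hx
      apply hs
      rw [mem_union]
      rintro (h3 | h3)
      · exact hx (eT_mono hT h3)
      · unfold rU at h3
        rw [mem_biUnion] at h3
        obtain ⟨a, ha, hxa⟩ := h3
        exact hx (cext_sub_eT (mem_sdiff.1 ha).1 hxa)
    · exact (hQ _ _ h1).1 hq
    · rw [← Tch_congr h1]
      exact ht

/-- the series of the configurations on the labels `T` which touch every label of `T` -/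
noncomputable def XT (i : ℕ) (κ : P → ι) (T : Finset ι) (Q : (P → ℕ) → Prop) : PowerSeries A :=
  ZQ i (eT (i + 1) κ T) (fun e => Tch (i + 1) κ e = T ∧ Q e)

lemma Tch_sub {U : Finset ι} {e : P → ℕ} (hs : Spt (eT l κ U) e) : Tch l κ e ⊆ U := by
  intro a ha
  rw [mem_Tch] at ha
  obtain ⟨z, h1, -, y, hy, hl, rfl⟩ := ha
  have h2 : z ∈ eT l κ U := by
    by_contra h3
    rw [hs z h3] at h1
    omega
  exact mem_eT.1 h2 y hy hl

/-- THE DECOMPOSITION by the touched labels -/
theorem touch_decomp (H : Gr P r) (hir : i ≤ r) (hκ : Split (i + 1) κ) {U : Finset ι}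
    (hU : U ⊆ univ.image κ) {Q : (P → ℕ) → Prop}
    (hQ : ∀ e f : P → ℕ, (∀ z, z ∉ cuni (i + 1) κ → e z = f z) → (Q e ↔ Q f)) :
    ZQ i (eT (i + 1) κ U) Q =
      ∑ T ∈ U.powerset, XT i κ T Q * ∏ a ∈ U \ T, ZS i (cext (i + 1) κ a) := by
  classical
  ext1 n
  rw [coeff_ZQ, map_sum]
  have h1 : ∑ e ∈ ((eT (i + 1) κ U).piAntidiag n).filter Q, tC i (eT (i + 1) κ U) e =
      ∑ T ∈ U.powerset, ∑ e ∈ (((eT (i + 1) κ U).piAntidiag n).filter Q).filter
        (fun e => Tch (i + 1) κ e = T), tC i (eT (i + 1) κ U) e := by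
    symm
    apply Finset.sum_fiberwise_of_maps_to
    intro e he
    rw [mem_filter] at he
    rw [mem_powerset]
    exact Tch_sub (spt_of_mem he.1)
  rw [h1]
  refine Finset.sum_congr rfl fun T hT => ?_
  rw [mem_powerset] at hT
  have h2 : XT i κ T Q * ∏ a ∈ U \ T, ZS i (cext (i + 1) κ a) =
      ZQ i (eT (i + 1) κ T ∪ rU (i + 1) κ U T)
        (fun g => (fun e => Tch (i + 1) κ e = T ∧ Q e) (rst (eT (i + 1) κ T) g)) := by
    have h3 := ZQ_union H hir (part_eT H (by omega) hκ T) (part_rU H (by omega) hκ U T)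
      (disj_rU (κ := κ) (U := U) (T := T)) (fun e => Tch (i + 1) κ e = T ∧ Q e)
    rw [ZS_rU H hir (by omega) hκ] at h3
    exact h3.symm
  rw [h2, coeff_ZQ]
  refine Finset.sum_congr ?_ fun e _ => tC_congr_st (st_eT (by omega) hκ hT).symm e
  ext e
  simp only [Finset.mem_filter, mem_pa']
  have h3 := touch_iff hU hT hQ (e := e)
  constructor
  · rintro ⟨⟨⟨a1, a2⟩, a3⟩, a4⟩
    obtain ⟨b1, b2⟩ := h3.1 ⟨a2, a3, a4⟩
    exact ⟨⟨a1, b1⟩, b2⟩
  · rintro ⟨⟨a1, a2⟩, a3⟩
    obtain ⟨b1, b2, b3⟩ := h3.2 ⟨a2, a3⟩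
    exact ⟨⟨⟨a1, b1⟩, b2⟩, b3⟩

end Pool.Agent.GaussPoset.Win.K2
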