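import Pool.Agent.W_448ua_h10.UaC
import Pool.Agent.W_448p_h97.PcA

/-!
MP_448cb3_co, G2, case B, window `j`: the sums over a set of components without joins to the
other components.  helper10.
-/

namespace Pool.Agent.GaussPoset.Win.K2

set_option linter.unusedSectionVars false

open Finset I2

universe u

variable {P : Type u} [Fintype P] [PartialOrder P] [DecidableEq P] {r i l : ℕ}
variable {ι : Type*} [DecidableEq ι] {κ : P → ι} {K : Finset P} {psi : P → P}

/-- the labels of `T0` are kept, the others are merged -/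
noncomputable def km (κ : P → ι) (T0 : Finset ι) (x : P) : Option ι := by
  classical
  exact if κ x ∈ T0 then some (κ x) else none

lemma km_some {T0 : Finset ι} {x : P} {a : ι} : km κ T0 x = some a ↔ κ x = a ∧ a ∈ T0 := by
  unfold km
  split_ifs with h
  · rw [Option.some.injEq]
    exact ⟨fun h1 => ⟨h1, h1 ▸ h⟩, fun h1 => h1.1⟩
  · simp only [reduceCtorEq, false_iff, not_and]
    rintro rfl
    exact h

lemma km_none {T0 : Finset ι} {x : P} : km κ T0 x = none ↔ κ x ∉ T0 := by
  unfold km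
  split_ifs with h
  · simp [h]
  · simp [h]

lemma split_km (hκ : Split l κ) (T0 : Finset ι) : Split l (km κ T0) := by
  intro x y hxy hl
  have h := hκ hxy hl
  unfold km
  rw [h]

lemma cext_km_some {T0 : Finset ι} {a : ι} (ha : a ∈ T0) :
    cext l (km κ T0) (some a) = cext l κ a := by
  ext x
  rw [mem_cext, mem_cext]
  constructor
  · intro h y hy hl
    exact (km_some.1 (h y hy hl)).1
  · intro h y hy hl
    exact km_some.2 ⟨h y hy hl, ha⟩

lemma cext_km_none {T0 T1 : Finset ι} (h01 : T0 ∪ T1 = univ.image κ) (hd : Disjoint T0 T1) :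
    cext l (km κ T0) none = eT l κ T1 := by
  ext x
  rw [mem_cext, mem_eT]
  constructor
  · intro h y hy hl
    have h1 := km_none.1 (h y hy hl)
    have h2 : κ y ∈ T0 ∪ T1 := by
      rw [h01]
      exact mem_image_of_mem κ (mem_univ y)
    rcases mem_union.1 h2 with h3 | h3
    · exact absurd h3 h1
    · exact h3
  · intro h y hy hl
    exact km_none.2 fun h1 => disjoint_left.1 hd h1 (h y hy hl)

/-- sums over the merged labels -/
lemma sum_km {T0 T1 : Finset ι} (h01 : T0 ∪ T1 = univ.image κ) (hd : Disjoint T0 T1)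
    (h1 : T1.Nonempty) (F : ℕ → PowerSeries A → ℤ) :
    ∑ a ∈ univ.image (km κ T0), F (bb i (i + 1) (km κ T0) a) (VV i (i + 1) (km κ T0) a) =
      ∑ a ∈ T0, F (bb i (i + 1) κ a) (VV i (i + 1) κ a) +
        F (st i (eT (i + 1) κ T1)).card (ZS i (eT (i + 1) κ T1)) := by
  classical
  have himg : univ.image (km κ T0) = insert none (T0.image some) := by
    ext a
    rw [mem_image, mem_insert, mem_image]
    constructor
    · rintro ⟨x, -, rfl⟩
      rcases hk : km κ T0 x with _ | b
      · left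
        rfl
      · right
        exact ⟨b, (km_some.1 hk).2, rfl⟩
    · rintro (rfl | ⟨b, hb, rfl⟩)
      · obtain ⟨c, hc⟩ := h1
        have h2 : c ∈ univ.image κ := by
          rw [← h01]
          exact mem_union_right _ hc
        rw [mem_image] at h2
        obtain ⟨x, -, hx⟩ := h2
        refine ⟨x, mem_univ x, km_none.2 ?_⟩
        rw [hx]
        exact disjoint_right.1 hd hc
      · have h2 : b ∈ univ.image κ := by
          rw [← h01]
          exact mem_union_left _ hb
        rw [mem_image] at h2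
        obtain ⟨x, -, hx⟩ := h2
        exact ⟨x, mem_univ x, km_some.2 ⟨hx, hb⟩⟩
  rw [himg, Finset.sum_insert (by simp), add_comm]
  congr 1
  · rw [Finset.sum_image (fun a _ b _ h => Option.some.inj h)]
    refine Finset.sum_congr rfl fun a ha => ?_
    unfold bb VV
    rw [cext_km_some ha]
  · unfold bb VV
    rw [cext_km_none h01 hd]

/-- the joins of the merged labels are the joins inside `T0` -/
lemma Z2_km (H : Gr P r) (hκ : Split (i + 1) κ) {T0 : Finset ι}
    (hSD : ∀ z y v, SD i κ z y v → (κ y ∈ T0 ↔ κ v ∈ T0)) :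
    Z2 i (km κ T0) = (Z2 i κ).filter (fun z => z ∈ eT (i + 1) κ T0) := by
  classical
  ext z
  rw [mem_Z2, mem_filter, mem_Z2]
  have up : ∀ z y v, SD i κ z y v → ∀ w, z ≤ w → lev w ≤ i + 1 → κ w = κ y ∨ κ w = κ v := by
    intro z y v S w hw hl
    have lz := S.lz
    rcases eq_or_lt_of_le hw with h1 | h1
    · subst h1
      omega
    · obtain ⟨u, hu', huw⟩ := normb_exists_cov h1
      have hu := mem_uc.2 hu'
      rw [S.huc, mem_insert, mem_singleton] at hu
      rcases hu with rfl | rfl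
      · left
        exact (hκ.le _ huw (by rw [S.ly H])).symm
      · right
        exact (hκ.le _ huw (by rw [S.lv' H])).symm
  constructor
  · rintro ⟨hz, y, v, S⟩
    have hne : κ y ≠ κ v := by
      intro h1
      apply S.hk
      unfold km
      rw [h1]
    have S' : SD i κ z y v := ⟨S.lz, S.huc, hne, S.cy, S.cv⟩
    have hiff := hSD z y v S'
    have hy : κ y ∈ T0 := by
      by_contra h1
      apply S.hk
      rw [km_none.2 h1, km_none.2 (fun h2 => h1 (hiff.2 h2))]
    have hv := hiff.1 hy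
    have hzT : z ∈ eT (i + 1) κ T0 := by
      rw [mem_eT]
      intro w hw hl
      rcases up z y v S' w hw hl with h1 | h1
      · rw [h1]
        exact hy
      · rw [h1]
        exact hv
    refine ⟨⟨?_, y, v, S'⟩, hzT⟩
    intro h1
    unfold cuni at h1
    rw [mem_biUnion] at h1
    obtain ⟨a, -, ha⟩ := h1
    rw [mem_cext] at ha
    have h2 := ha y (mem_uc.1 S'.my).le (by rw [S'.ly H])
    have h3 := ha v (mem_uc.1 S'.mv).le (by rw [S'.lv' H])
    exact hne (h2.trans h3.symm)
  · rintro ⟨⟨hz, y, v, S⟩, hzT⟩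
    have hy := mem_eT.1 hzT y (mem_uc.1 S.my).le (by rw [S.ly H])
    have hv := mem_eT.1 hzT v (mem_uc.1 S.mv).le (by rw [S.lv' H])
    have hk : km κ T0 y ≠ km κ T0 v := by
      rw [km_some.2 ⟨rfl, hy⟩, km_some.2 ⟨rfl, hv⟩]
      intro h1
      exact S.hk (Option.some.inj h1)
    refine ⟨?_, y, v, ⟨S.lz, S.huc, hk, S.cy, S.cv⟩⟩
    intro h1
    unfold cuni at h1
    rw [mem_biUnion] at h1
    obtain ⟨a, -, ha⟩ := h1
    rw [mem_cext] at ha
    have h2 := ha y (mem_uc.1 S.my).le (by rw [S.ly H])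
    have h3 := ha v (mem_uc.1 S.mv).le (by rw [S.lv' H])
    exact hk (h2.trans h3.symm)

/-- THE SUMS OVER A SET OF COMPONENTS WITHOUT JOINS TO THE OTHERS -/
theorem class_sums (H : Gr P r) (hir : i ≤ r) (hq : NoQ P (i + 2))
    (hg : ∀ m, m + 1 = i → Good P m) (hκ : Split (i + 1) κ) (hM : Mat P i K psi)
    (hK : K ⊆ dbL P i ∪ dbU P i)
    (hP : ∀ a ∈ univ.image κ, PG (bb i (i + 1) κ a) (VV i (i + 1) κ a))
    (hA : ∀ T : Finset ι, T.Nonempty → T ⊆ univ.image κ →
      Wt3 (st i (eT (i + 1) κ T)).card (XT i κ T (fun _ => True)))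
    (hown : ∀ a ∈ univ.image κ, Wt3 (st i (cext (i + 1) κ a)).card (ZS i (cext (i + 1) κ a)))
    {T0 T1 : Finset ι} (h01 : T0 ∪ T1 = univ.image κ) (hd : Disjoint T0 T1)
    (hS : ∀ T : Finset ι, T.Nonempty → T ⊆ univ.image κ →
      Ws3 (st i (eT (i + 1) κ T)).card (XT i κ T (Cr2 (i + 1) κ T1 T0)))
    (hSD : ∀ z y v, SD i κ z y v → (κ y ∈ T0 ↔ κ v ∈ T0)) :
    ∑ a ∈ T0, w3 (bb i (i + 1) κ a) (VV i (i + 1) κ a) = 0 ∧
    ∑ a ∈ T0, (w3 (bb i (i + 1) κ a) (VV i (i + 1) κ a) ^ 2 -
      2 * w6 (bb i (i + 1) κ a) (VV i (i + 1) κ a)) =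
      - (2 * ∑ z ∈ (Z2 i κ).filter (fun z => z ∈ eT (i + 1) κ T0),
        (EK.Ek i K (Tz z) 3 + EK.Ek i K (Tz z) 2)) := by
  classical
  rcases T1.eq_empty_or_nonempty with h1 | h1
  · subst h1
    rw [union_empty] at h01
    subst h01
    have e1 := (four_two_gen H hir hq hg hκ hM hK hP).1
    have e2 := six_four H hir hq hg hκ hM hK hP
    refine ⟨e1, e2.trans ?_⟩
    rw [eT_univ]
    congr 3
    ext z
    simp
  · have hu := side_unit H hir hκ hA hown (T0 := T1) (T1 := T0) (by rw [union_comm]; exact h01)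
      hd.symm hS
    have hsub1 : T1 ⊆ univ.image κ := by
      rw [← h01]
      exact subset_union_right
    have hPG1 := PG_of_Wt3 (Wt3_eT H hir hκ hA hown hsub1)
    have hκm : Split (i + 1) (km κ T0) := split_km hκ T0
    have hPm : ∀ a ∈ univ.image (km κ T0),
        PG (bb i (i + 1) (km κ T0) a) (VV i (i + 1) (km κ T0) a) := by
      intro a ha
      unfold bb VV
      rcases a with _ | a
      · rw [cext_km_none h01 hd]
        exact hPG1
      · rw [mem_image] at ha
        obtain ⟨x, -, hx⟩ := ha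
        obtain ⟨hxa, haT⟩ := km_some.1 hx
        rw [cext_km_some haT]
        exact hP a (by rw [← hxa]; exact mem_image_of_mem κ (mem_univ x))
    have e1 := (four_two_gen H hir hq hg hκm hM hK hPm).1
    have e2 := six_four H hir hq hg hκm hM hK hPm
    rw [sum_km h01 hd h1 (fun b f => w3 b f), w3_of_ini hu, add_zero] at e1
    rw [sum_km h01 hd h1 (fun b f => w3 b f ^ 2 - 2 * w6 b f), w3_of_ini hu, w6_of_ini hu,
      Z2_km H hκ hSD] at e2
    refine ⟨e1, ?_⟩
    rw [← e2]
    ring

end Pool.Agent.GaussPoset.Win.K2
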