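import Pool.Agent.W_448ua_h10.UaA

/-!
MP_448cb3_co, G2, case B, window `j`: initial forms of slope `3/2` (weight 2 for the energy,
weight 3 for `dd`) and the unit argument.  helper10.
-/

namespace Pool.Agent.GaussPoset.Win.K2

set_option linter.unusedSectionVars false

open Finset

universe u

/-- poles of order at most `2 n / 3` -/
def Wt3 (b : ℕ) (f : PowerSeries A) : Prop := ∀ n, dd ^ (b - 2 * n / 3) ∣ PowerSeries.coeff n f

/-- poles of order less than `2 n / 3` -/
def Ws3 (b : ℕ) (f : PowerSeries A) : Prop :=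
  ∀ n, dd ^ (b - (2 * n - 1) / 3) ∣ PowerSeries.coeff n f ∧ (n = 0 → PowerSeries.coeff n f = 0)

/-- the coefficients on the edge of slope `3/2` -/
noncomputable def ini3 (b : ℕ) (f : PowerSeries A) : Polynomial ℤ :=
  ∑ k ∈ Finset.range (b / 2 + 1),
    Polynomial.monomial k (PowerSeries.coeff (b - 2 * k) (PowerSeries.coeff (3 * k) f : A))

lemma coeff_ini3 (b : ℕ) (f : PowerSeries A) (k : ℕ) : (ini3 b f).coeff k =
    if 2 * k ≤ b then PowerSeries.coeff (b - 2 * k) (PowerSeries.coeff (3 * k) f : A) else 0 := by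
  unfold ini3
  rw [Polynomial.finsetSum_coeff]
  simp only [Polynomial.coeff_monomial]
  rw [Finset.sum_ite_eq']
  simp only [Finset.mem_range]
  by_cases h : 2 * k ≤ b
  · rw [if_pos (by omega), if_pos h]
  · rw [if_neg (by omega), if_neg h]

lemma Wt3.mul {b c : ℕ} {f g : PowerSeries A} (hf : Wt3 b f) (hg : Wt3 c g) :
    Wt3 (b + c) (f * g) := by
  intro n
  rw [PowerSeries.coeff_mul]
  refine Finset.dvd_sum fun p hp => ?_
  rw [HasAntidiagonal.mem_antidiagonal] at hp
  refine (pow_dvd_pow dd (m := b + c - 2 * n / 3)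
    (n := (b - 2 * p.1 / 3) + (c - 2 * p.2 / 3)) (by omega)).trans ?_
  rw [pow_add]
  exact mul_dvd_mul (hf p.1) (hg p.2)

lemma Wt3.add {b : ℕ} {f g : PowerSeries A} (hf : Wt3 b f) (hg : Wt3 b g) : Wt3 b (f + g) := by
  intro n
  rw [map_add]
  exact dvd_add (hf n) (hg n)

lemma Wt3.sum {ι : Type*} {b : ℕ} {s : Finset ι} {f : ι → PowerSeries A}
    (h : ∀ a ∈ s, Wt3 b (f a)) : Wt3 b (∑ a ∈ s, f a) := by
  intro n
  rw [map_sum]
  exact Finset.dvd_sum fun a ha => h a ha n

lemma Ws3.wt {b : ℕ} {f : PowerSeries A} (h : Ws3 b f) : Wt3 b f := by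
  intro n
  exact (pow_dvd_pow dd (by omega)).trans (h n).1

lemma Ws3.sum {ι : Type*} {b : ℕ} {s : Finset ι} {f : ι → PowerSeries A}
    (h : ∀ a ∈ s, Ws3 b (f a)) : Ws3 b (∑ a ∈ s, f a) := by
  intro n
  rw [map_sum]
  exact ⟨Finset.dvd_sum fun a ha => (h a ha n).1,
    fun h0 => Finset.sum_eq_zero fun a ha => (h a ha n).2 h0⟩

lemma Ws3.mul {b c : ℕ} {f g : PowerSeries A} (hf : Ws3 b f) (hg : Wt3 c g) :
    Ws3 (b + c) (f * g) := by
  intro n
  rw [PowerSeries.coeff_mul]
  constructor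
  · refine Finset.dvd_sum fun p hp => ?_
    rw [HasAntidiagonal.mem_antidiagonal] at hp
    rcases Nat.eq_zero_or_pos p.1 with h0 | h0
    · rw [(hf p.1).2 h0, zero_mul]
      exact dvd_zero _
    · refine (pow_dvd_pow dd (m := b + c - (2 * n - 1) / 3)
        (n := (b - (2 * p.1 - 1) / 3) + (c - 2 * p.2 / 3)) (by omega)).trans ?_
      rw [pow_add]
      exact mul_dvd_mul (hf p.1).1 (hg p.2)
  · rintro rfl
    refine Finset.sum_eq_zero fun p hp => ?_
    rw [HasAntidiagonal.mem_antidiagonal] at hp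
    rw [(hf p.1).2 (by omega), zero_mul]

lemma Ws3.ini {b : ℕ} {f : PowerSeries A} (h : Ws3 b f) : ini3 b f = 0 := by
  ext k
  rw [coeff_ini3, Polynomial.coeff_zero]
  split_ifs with hk
  · rcases Nat.eq_zero_or_pos k with rfl | h0
    · rw [(h (3 * 0)).2 rfl]
      exact map_zero _
    · exact I2.coeff_zero_of_dvd (h (3 * k)).1 (by omega)
  · rfl

lemma ini3_add (b : ℕ) (f g : PowerSeries A) : ini3 b (f + g) = ini3 b f + ini3 b g := by
  ext k
  rw [Polynomial.coeff_add, coeff_ini3, coeff_ini3, coeff_ini3]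
  split_ifs
  · rw [map_add, map_add]
  · rw [add_zero]

lemma ini3_mul {b c : ℕ} {f g : PowerSeries A} (hf : Wt3 b f) (hg : Wt3 c g) :
    ini3 (b + c) (f * g) = ini3 b f * ini3 c g := by
  ext k
  rw [coeff_ini3, Polynomial.coeff_mul]
  simp only [coeff_ini3]
  by_cases hk : 2 * k ≤ b + c
  · rw [if_pos hk, PowerSeries.coeff_mul, map_sum]
    symm
    refine Finset.sum_of_injOn (fun p : ℕ × ℕ => (3 * p.1, 3 * p.2)) ?_ ?_ ?_ ?_
    · intro p _ q _ h
      simp only [Prod.mk.injEq] at h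
      ext <;> omega
    · intro p hp
      rw [mem_coe, HasAntidiagonal.mem_antidiagonal] at hp ⊢
      simp only
      omega
    · intro p hp hne
      rw [HasAntidiagonal.mem_antidiagonal] at hp
      have hodd : p.1 % 3 ≠ 0 ∧ p.2 % 3 ≠ 0 := by
        by_contra h
        apply hne
        refine ⟨(p.1 / 3, p.2 / 3), ?_, ?_⟩
        · rw [mem_coe, HasAntidiagonal.mem_antidiagonal]
          simp only
          omega
        · ext <;> simp only <;> omega
      have hx : 2 * p.1 / 3 + 2 * p.2 / 3 + 1 = 2 * k := by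
        obtain ⟨h1, h2⟩ := hodd
        obtain ⟨u, hu⟩ : ∃ u, p.1 = 3 * u + 1 ∨ p.1 = 3 * u + 2 := ⟨p.1 / 3, by omega⟩
        obtain ⟨v, hv⟩ : ∃ v, p.2 = 3 * v + 1 ∨ p.2 = 3 * v + 2 := ⟨p.2 / 3, by omega⟩
        rcases hu with hu | hu <;> rcases hv with hv | hv <;> rw [hu, hv] at hp ⊢ <;> omega
      apply I2.coeff_zero_of_dvd (a := (b - 2 * p.1 / 3) + (c - 2 * p.2 / 3))
      · rw [pow_add]
        exact mul_dvd_mul (hf p.1) (hg p.2)
      · generalize 2 * p.1 / 3 = u at hx ⊢
        generalize 2 * p.2 / 3 = v at hx ⊢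
        omega
    · intro p hp
      rw [HasAntidiagonal.mem_antidiagonal] at hp
      simp only
      by_cases h1 : 2 * p.1 ≤ b
      · by_cases h2 : 2 * p.2 ≤ c
        · rw [if_pos h1, if_pos h2]
          have e1 : b + c - 2 * k = (b - 2 * p.1) + (c - 2 * p.2) := by omega
          rw [e1]
          symm
          apply I2.coeff_low
          · have := hf (3 * p.1)
            rwa [show 2 * (3 * p.1) / 3 = 2 * p.1 by omega] at this
          · have := hg (3 * p.2)
            rwa [show 2 * (3 * p.2) / 3 = 2 * p.2 by omega] at this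
        · rw [if_neg h2, mul_zero]
          symm
          apply I2.coeff_zero_of_dvd (a := (b - 2 * p.1) + (c - 2 * p.2))
          · rw [pow_add]
            have t1 := hf (3 * p.1)
            rw [show 2 * (3 * p.1) / 3 = 2 * p.1 by omega] at t1
            have t2 := hg (3 * p.2)
            rw [show 2 * (3 * p.2) / 3 = 2 * p.2 by omega] at t2
            exact mul_dvd_mul t1 t2
          · omega
      · rw [if_neg h1, zero_mul]
        symm
        apply I2.coeff_zero_of_dvd (a := (b - 2 * p.1) + (c - 2 * p.2))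
        · rw [pow_add]
          have t1 := hf (3 * p.1)
          rw [show 2 * (3 * p.1) / 3 = 2 * p.1 by omega] at t1
          have t2 := hg (3 * p.2)
          rw [show 2 * (3 * p.2) / 3 = 2 * p.2 by omega] at t2
          exact mul_dvd_mul t1 t2
        · omega
  · rw [if_neg hk]
    symm
    refine Finset.sum_eq_zero fun p hp => ?_
    rw [HasAntidiagonal.mem_antidiagonal] at hp
    by_cases h1 : 2 * p.1 ≤ b
    · rw [if_neg (show ¬ 2 * p.2 ≤ c by omega), mul_zero]
    · rw [if_neg h1, zero_mul]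

lemma Wt3.one : Wt3 0 (1 : PowerSeries A) := by
  intro n
  rw [Nat.zero_sub, pow_zero]
  exact one_dvd _

lemma Wt3.prod {ι : Type*} [DecidableEq ι] {s : Finset ι} {b : ι → ℕ} {f : ι → PowerSeries A}
    (h : ∀ a ∈ s, Wt3 (b a) (f a)) : Wt3 (∑ a ∈ s, b a) (∏ a ∈ s, f a) := by
  induction s using Finset.induction_on with
  | empty => simpa using Wt3.one
  | insert a s ha ih =>
    rw [Finset.sum_insert ha, Finset.prod_insert ha]
    exact (h a (mem_insert_self a s)).mul (ih fun b hb => h b (mem_insert_of_mem hb))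

/-- UNIT ARGUMENT: polynomials with product one and constant term one are one -/
lemma unit_one {f g : Polynomial ℤ} (h : f * g = 1) (h0 : f.coeff 0 = 1) : f = 1 := by
  have hu : IsUnit f := IsUnit.of_mul_eq_one g h
  obtain ⟨c, hc, hcf⟩ := Polynomial.isUnit_iff.1 hu
  rw [← hcf] at h0 ⊢
  rw [Polynomial.coeff_C_zero] at h0
  rw [h0, Polynomial.C_1]

end Pool.Agent.GaussPoset.Win.K2
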