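import Pool.Agent.W_448ua_h10.UaB

/-!
MP_448cb3_co, G2, case B, window `j`: the edge polynomial of a set of components without joins
to the other components is one.  helper10.
-/

namespace Pool.Agent.GaussPoset.Win.K2

set_option linter.unusedSectionVars false

open Finset I2

universe u

variable {P : Type u} [Fintype P] [PartialOrder P] [DecidableEq P] {r i l : ℕ}
variable {ι : Type*} [DecidableEq ι] {κ : P → ι}

lemma Wt3_zero (f : PowerSeries A) : Wt3 0 f := by
  intro n
  rw [Nat.zero_sub, pow_zero]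
  exact one_dvd _

/-- the sites of `eT U` are distributed -/
lemma card_st_eT (hil : i ≤ l) (hκ : Split l κ) {U T : Finset ι} (hT : T ⊆ U) :
    (st i (eT l κ U)).card =
      (st i (eT l κ T)).card + ∑ a ∈ U \ T, (st i (cext l κ a)).card := by
  rw [← st_eT hil hκ hT, card_st_union disj_rU]
  congr 1
  unfold rU st
  rw [Finset.filter_biUnion, Finset.card_biUnion]
  intro a _ b _ hab
  exact disjoint_of_subset_left (filter_subset _ _)
    (disjoint_of_subset_right (filter_subset _ _) (disj_cext hab))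

lemma eT_empty (l : ℕ) (κ : P → ι) : eT l κ (∅ : Finset ι) = ∅ := by
  rw [Finset.eq_empty_iff_forall_notMem]
  intro x hx
  obtain ⟨y, hy, hy0⟩ := exists_top x
  exact absurd (mem_eT.1 hx y hy (by omega)) (notMem_empty _)

/-- the property that an excited element lies below labels of both sides -/
def Cr2 (l : ℕ) (κ : P → ι) (T0 T1 : Finset ι) (e : P → ℕ) : Prop :=
  ∃ z, 1 ≤ e z ∧ z ∉ eT l κ T0 ∧ z ∉ eT l κ T1

lemma not_cuni {T0 T1 : Finset ι} (h01 : T0 ∪ T1 = univ.image κ) {z : P}
    (h0 : z ∉ eT l κ T0) (h1 : z ∉ eT l κ T1) : z ∉ cuni l κ := by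
  intro h2
  unfold cuni at h2
  rw [mem_biUnion] at h2
  obtain ⟨a, ha, hz⟩ := h2
  rw [← h01, mem_union] at ha
  rcases ha with ha | ha
  · exact h0 (cext_sub_eT ha hz)
  · exact h1 (cext_sub_eT ha hz)

lemma Cr2_congr {T0 T1 : Finset ι} (h01 : T0 ∪ T1 = univ.image κ) (e f : P → ℕ)
    (h : ∀ z, z ∉ cuni l κ → e z = f z) : Cr2 l κ T0 T1 e ↔ Cr2 l κ T0 T1 f := by
  constructor
  · rintro ⟨z, h1, h2, h3⟩
    exact ⟨z, by rw [← h z (not_cuni h01 h2 h3)]; exact h1, h2, h3⟩
  · rintro ⟨z, h1, h2, h3⟩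
    exact ⟨z, by rw [h z (not_cuni h01 h2 h3)]; exact h1, h2, h3⟩

section main

variable (H : Gr P r) (hir : i ≤ r) (hκ : Split (i + 1) κ)
  (hA : ∀ T : Finset ι, T.Nonempty → T ⊆ univ.image κ →
    Wt3 (st i (eT (i + 1) κ T)).card (XT i κ T (fun _ => True)))
  (hown : ∀ a ∈ univ.image κ, Wt3 (st i (cext (i + 1) κ a)).card (ZS i (cext (i + 1) κ a)))
include H hir hκ hA hown

/-- every union of components has poles of order at most `2 n / 3` -/
theorem Wt3_eT {U : Finset ι} (hU : U ⊆ univ.image κ) :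
    Wt3 (st i (eT (i + 1) κ U)).card (ZS i (eT (i + 1) κ U)) := by
  have h1 := touch_decomp H hir hκ hU (Q := fun _ => True) (fun _ _ _ => Iff.rfl)
  rw [ZQ_true i _ _ (fun _ => trivial)] at h1
  rw [h1]
  refine Wt3.sum fun T hT => ?_
  rw [mem_powerset] at hT
  rw [card_st_eT (by omega) hκ hT]
  refine Wt3.mul ?_ (Wt3.prod fun a ha => hown a (hU (mem_sdiff.1 ha).1))
  rcases T.eq_empty_or_nonempty with rfl | hne
  · rw [eT_empty]
    have : (st i (∅ : Finset P)).card = 0 := by
      unfold st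
      simp
    rw [this]
    exact Wt3_zero _
  · exact hA T hne (hT.trans hU)

/-- the configurations which join the two sides do not reach the edge -/
theorem Ws3_cross {T0 T1 : Finset ι} (h01 : T0 ∪ T1 = univ.image κ)
    (hS : ∀ T : Finset ι, T.Nonempty → T ⊆ univ.image κ →
      Ws3 (st i (eT (i + 1) κ T)).card (XT i κ T (Cr2 (i + 1) κ T0 T1))) :
    Ws3 (lv P i).card (ZQ i univ (Cr2 (i + 1) κ T0 T1)) := by
  have h1 := touch_decomp H hir hκ (U := univ.image κ) (subset_refl _)
    (Q := Cr2 (i + 1) κ T0 T1) (Cr2_congr h01)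
  rw [eT_univ] at h1
  rw [h1]
  have hb : (lv P i).card = (st i (eT (i + 1) κ (univ.image κ))).card := by
    rw [eT_univ, st_univ]
  rw [hb]
  refine Ws3.sum fun T hT => ?_
  rw [mem_powerset] at hT
  rw [card_st_eT (by omega) hκ hT]
  refine Ws3.mul ?_ (Wt3.prod fun a ha => hown a (mem_sdiff.1 ha).1)
  rcases T.eq_empty_or_nonempty with rfl | hne
  · classical
    have h0 : XT i κ ∅ (Cr2 (i + 1) κ T0 T1) = 0 := by
      ext1 n
      unfold XT
      rw [coeff_ZQ, map_zero]
      apply Finset.sum_eq_zero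
      intro e he
      exfalso
      simp only [Finset.mem_filter] at he
      obtain ⟨-, h2, z, h3, h4, h5⟩ := he
      have h6 := mem_eT_Tch h3 (not_cuni h01 h4 h5)
      rw [h2, eT_empty] at h6
      exact absurd h6 (notMem_empty _)
    rw [h0]
    intro n
    rw [map_zero]
    exact ⟨dvd_zero _, fun _ => rfl⟩
  · exact hS T hne hT

omit hκ hA hown in
/-- the total has no edge -/
lemma ini3_total : ini3 (lv P i).card (ZS i (univ : Finset P)) = 1 := by
  ext k
  have h1 : ∀ n, dd ^ (lv P i).card ∣ ZC i (univ : Finset P) n := by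
    intro n
    have h2 := dvd_sum_trm H hir n
    unfold ZC
    simp only [tC_univ]
    exact h2
  rcases Nat.eq_zero_or_pos k with rfl | hk
  · rw [coeff_ini3, coeff_ZS, if_pos (by omega), Polynomial.coeff_one, if_pos rfl]
    simp only [Nat.mul_zero, Nat.sub_zero]
    rw [ZC_zero H hir, st_univ]
    unfold dd
    rw [PowerSeries.coeff_X_pow_self]
  · have h3 : (1 : Polynomial ℤ).coeff k = 0 := by
      rw [Polynomial.coeff_one, if_neg (by omega)]
    rw [h3, coeff_ini3, coeff_ZS]
    split_ifs with h2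
    · exact I2.coeff_zero_of_dvd (h1 (3 * k)) (by omega)
    · rfl

/-- THE EDGE POLYNOMIAL OF A SIDE -/
theorem side_unit {T0 T1 : Finset ι} (h01 : T0 ∪ T1 = univ.image κ) (hd : Disjoint T0 T1)
    (hS : ∀ T : Finset ι, T.Nonempty → T ⊆ univ.image κ →
      Ws3 (st i (eT (i + 1) κ T)).card (XT i κ T (Cr2 (i + 1) κ T0 T1))) :
    ini3 (st i (eT (i + 1) κ T0)).card (ZS i (eT (i + 1) κ T0)) = 1 := by
  classical
  have hs := Ws3_cross H hir hκ hA hown h01 hS
  have hdis : Disjoint (eT (i + 1) κ T0) (eT (i + 1) κ T1) := by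
    rw [disjoint_left]
    intro x hx hx'
    obtain ⟨y, hy, hy0⟩ := exists_top x
    exact disjoint_left.1 hd (mem_eT.1 hx y hy (by omega)) (mem_eT.1 hx' y hy (by omega))
  have hprod := ZS_union H hir (part_eT H (i := i) (by omega) hκ T0)
    (part_eT H (i := i) (by omega) hκ T1) hdis
  have hst : st i (eT (i + 1) κ T0 ∪ eT (i + 1) κ T1) = lv P i := by
    ext v
    rw [mem_st, mem_union, mem_lv]
    constructor
    · exact fun h => h.2
    · intro h
      refine ⟨?_, h⟩
      have h2 : κ v ∈ T0 ∪ T1 := by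
        rw [h01]
        exact mem_image_of_mem κ (mem_univ v)
      rcases mem_union.1 h2 with h3 | h3
      · exact Or.inl (mem_eT_of_le hκ (by omega) h3)
      · exact Or.inr (mem_eT_of_le hκ (by omega) h3)
  have hcard : (st i (eT (i + 1) κ T0)).card + (st i (eT (i + 1) κ T1)).card =
      (lv P i).card := by
    rw [← card_st_union hdis, hst]
  have htot : ZS i (univ : Finset P) =
      ZS i (eT (i + 1) κ T0) * ZS i (eT (i + 1) κ T1) + ZQ i univ (Cr2 (i + 1) κ T0 T1) := by
    rw [← hprod]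
    ext1 n
    rw [map_add, coeff_ZS, coeff_ZS, coeff_ZQ]
    unfold ZC
    rw [← Finset.sum_filter_add_sum_filter_not ((univ : Finset P).piAntidiag n)
      (Cr2 (i + 1) κ T0 T1), add_comm]
    congr 1
    have h2 : ((univ : Finset P).piAntidiag n).filter (fun e => ¬ Cr2 (i + 1) κ T0 T1 e) =
        (eT (i + 1) κ T0 ∪ eT (i + 1) κ T1).piAntidiag n := by
      ext e
      simp only [Finset.mem_filter, mem_pa']
      constructor
      · rintro ⟨⟨h3, -⟩, h4⟩
        refine ⟨h3, fun x hx => ?_⟩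
        by_contra h5
        rw [mem_union, not_or] at hx
        exact h4 ⟨x, by omega, hx.1, hx.2⟩
      · rintro ⟨h3, h4⟩
        refine ⟨⟨h3, fun x hx => absurd (mem_univ x) hx⟩, ?_⟩
        rintro ⟨z, hz, h5, h6⟩
        have := h4 z (by rw [mem_union]; tauto)
        omega
    rw [h2]
    refine Finset.sum_congr rfl fun e _ => ?_
    exact tC_congr_st (by rw [st_univ, hst]) e
  have w0 := Wt3_eT H hir hκ hA hown (U := T0) (by rw [← h01]; exact subset_union_left)
  have w1 := Wt3_eT H hir hκ hA hown (U := T1) (by rw [← h01]; exact subset_union_right)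
  have e1 := ini3_total H hir
  rw [htot, ini3_add, hs.ini, add_zero, ← hcard, ini3_mul w0 w1] at e1
  refine unit_one e1 ?_
  rw [coeff_ini3, if_pos (by omega)]
  simp only [Nat.mul_zero, Nat.sub_zero]
  rw [coeff_ZS, ZC_zero H hir]
  unfold dd
  rw [PowerSeries.coeff_X_pow_self]

end main

/-- the values on the edge -/
lemma w3_of_ini {b : ℕ} {f : PowerSeries A} (h : ini3 b f = 1) : w3 b f = 0 := by
  have h1 : (ini3 b f).coeff 1 = 0 := by
    rw [h, Polynomial.coeff_one, if_neg (by omega)]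
  rw [coeff_ini3] at h1
  unfold w3 dd
  rw [PowerSeries.coeff_X_pow_mul']
  split_ifs with h2
  · rw [if_pos (by omega)] at h1
    exact h1
  · rfl

lemma w6_of_ini {b : ℕ} {f : PowerSeries A} (h : ini3 b f = 1) : w6 b f = 0 := by
  have h1 : (ini3 b f).coeff 2 = 0 := by
    rw [h, Polynomial.coeff_one, if_neg (by omega)]
  rw [coeff_ini3] at h1
  unfold w6 dd
  rw [PowerSeries.coeff_X_pow_mul']
  split_ifs with h2
  · rw [if_pos (by omega)] at h1
    exact h1
  · rfl

lemma PG_of_Wt3 {b : ℕ} {f : PowerSeries A} (h : Wt3 b f) : PG b f := by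
  intro n hn
  have h1 := h n
  have h2 : gd n = 2 * n / 3 := by
    unfold gd
    interval_cases n <;> rfl
  rw [h2]
  have h3 : dd ^ b ∣ dd ^ (2 * n / 3) * dd ^ (b - 2 * n / 3) := by
    rw [← pow_add]
    exact pow_dvd_pow dd (by omega)
  exact h3.trans (mul_dvd_mul_left _ h1)

end Pool.Agent.GaussPoset.Win.K2
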