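import Pool.Agent.W_448ua_h10.UaD
import Pool.Agent.W_448so_h63.GJ

/-!
MP_448cb3_co, G2, case B, window `j`: the own series of a component whose unmatched near elements
form a star has poles of order at most `2 n / 3`.  helper10.
-/

namespace Pool.Agent.GaussPoset.Win.K2

set_option linter.unusedSectionVars false

open Finset I2

universe u

variable {P : Type u} [Fintype P] [PartialOrder P] [DecidableEq P] {r i : ℕ} {e : P → ℕ}
variable {ι : Type*} [DecidableEq ι] {κ : P → ι} {K : Finset P} {psi : P → P}

/-- the own series of a star component -/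
theorem Wt3_star (H : Gr P r) (hir : i ≤ r) (hq : NoQ P (i + 2))
    (hg : ∀ m, m + 1 = i → Good P m) (hκ : Split (i + 1) κ) (hM : Mat P i K psi)
    (hK : K ⊆ dbL P i ∪ dbU P i) {a : ι} (hs : Star i (cext (i + 1) κ a) K) :
    Wt3 (st i (cext (i + 1) κ a)).card (ZS i (cext (i + 1) κ a)) := by
  have hC : Part (i + 1) (cext (i + 1) κ a) := part_cext H le_rfl hκ a
  have hcl := K_class H hir hq hg hM hC hs
  have h1 : dd ^ (st i (cext (i + 1) κ a)).card ∣ ZC i (cext (i + 1) κ a) 1 := by
    refine K_one H hir hq hg hM hC hK ?_
    have h2 : K.filter (fun k => k ∈ cext (i + 1) κ a) = K.filter (fun k => κ k = a) := by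
      refine filter_congr fun k hk => ?_
      have hl : lev k ≤ i + 1 := by
        rcases mem_union.1 (hK hk) with h | h
        · have := mem_dbL'.1 h
          omega
        · have := mem_dbU'.1 h
          omega
      constructor
      · intro h
        exact mem_cext.1 h k le_rfl hl
      · exact fun h => mem_cext_of_le hκ hl h
    rw [h2]
    exact EK.sum_K H hir hκ hM hK a
  intro n
  rw [coeff_ZS]
  have h2 : n = 0 ∨ n = 1 ∨ 2 ≤ n := by omega
  rcases h2 with rfl | rfl | h2
  · rw [ZC_zero H hir]
    simp
  · simpa using h1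
  · refine (pow_dvd_pow dd ?_).trans (hcl n)
    omega

end Pool.Agent.GaussPoset.Win.K2
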