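import Pool.Agent.W_448pb_h63.PbC

/-!
MP_448cb3_co, G2, case B, window `j`: the structure of the configurations on the edge of slope
`3/2`.  helper10.
-/

namespace Pool.Agent.GaussPoset.Win.K2

set_option linter.unusedSectionVars false

open Finset I2

universe u

variable {P : Type u} [Fintype P] [PartialOrder P] [DecidableEq P] {r i : ℕ} {e : P → ℕ}

variable {ι : Type*} [DecidableEq ι] {κ : P → ι} {K : Finset P} {psi : P → P} {T : Finset ι}

/-- a configuration on the edge, the labels of `T` are touched -/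
structure Edg (i : ℕ) (κ : P → ι) (K : Finset P) (psi : P → P) (T : Finset ι) (e : P → ℕ) :
    Prop where
  hL : AdmL i e
  hU : AdmU i e
  hd : Disjoint (AL i e) (AU i e)
  sk : SK i K psi e = ∅
  tou : ∀ a ∈ T, Tou i κ e a
  spt : ∀ x, lev x ≤ i + 1 → 1 ≤ e x → κ x ∈ T
  eq : 2 * (∑ x, e x) + 3 * (pL i e + pU i e) ≤ 3 * ((AL i e).card + (AU i e).card)

/-- the sum over the three kinds of levels -/
lemma sum_lev (e : P → ℕ) :
    ∑ x, e x = ∑ x ∈ lS P i, e x + ∑ x ∈ uS P i, e x + ∑ x ∈ lv P i, e x := by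
  have h6 : (univ : Finset P) = (lS P i ∪ uS P i) ∪ lv P i := by
    ext x
    simp only [mem_univ, mem_union, mem_lS, mem_uS, mem_lv, true_iff]
    omega
  rw [h6, Finset.sum_union, Finset.sum_union]
  · rw [disjoint_left]
    intro x hx hx'
    rw [mem_lS] at hx
    rw [mem_uS] at hx'
    omega
  · rw [disjoint_left]
    intro x hx hx'
    rw [mem_union, mem_lS, mem_uS] at hx
    rw [mem_lv] at hx'
    omega

lemma KB_bN {k : P} (hk : k ∈ KB i K e) : k ∈ bN i e := by
  rw [mem_KB] at hk
  unfold bN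
  rcases hk.2 with h | h
  · exact mem_union_left _ h.1
  · exact mem_union_right _ h.1

/-- THE INEQUALITY with the number of the simple pairs -/
theorem slope_T1 (H : Gr P r) (hir : i ≤ r) (hq : NoQ P (i + 2))
    (hg : ∀ m, m + 1 = i → Good P m) (hκ : Split (i + 1) κ) (hM : Mat P i K psi)
    {T : Finset ι} (hK : ∀ a ∈ T, Star i (cext (i + 1) κ a) K)
    (hs : ∀ x, lev x ≤ i + 1 → 1 ≤ e x → κ x ∈ T)
    (hL : AdmL i e) (hU : AdmU i e) (hd : Disjoint (AL i e) (AU i e)) :
    2 * ((AL i e).card + (AU i e).card) ≤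
      (∑ x, e x) + 2 * (pL i e + pU i e) + (SK i K psi e).card + T.card := by
  classical
  obtain ⟨XL, XU, hXL, hXU, h1⟩ := main_K hM H hir hq hg hL hU hd (δ := 0) (Or.inl rfl)
  have h2 : ∀ a ∈ T, ((KB i K e).filter (fun x => κ x = a)).card +
      (XL.filter (fun x => κ x = a)).card + (XU.filter (fun x => κ x = a)).card ≤
      ∑ x ∈ (lv P i).filter (fun x => κ x = a), e x + 1 := fun a ha =>
    star_loc H hir hq hg hκ hM (hK a ha) hd hXL hXU
  have h3 : ∀ S : Finset P, (∀ x ∈ S, κ x ∈ T) →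
      ∑ a ∈ T, (S.filter (fun x => κ x = a)).card = S.card := by
    intro S hS
    exact (Finset.card_eq_sum_card_fiberwise hS).symm
  have hKB : ∀ x ∈ KB i K e, κ x ∈ T := by
    intro k hk
    have h4 := KB_bN hk
    exact hs k (lev_bN H hir hq hg h4) (by have := (bN_data H hir hq hg h4).2.1; omega)
  have hXLT : ∀ x ∈ XL, κ x ∈ T := by
    intro x hx
    obtain ⟨l1, l2, -, -⟩ := hXL x hx
    exact hs x (by omega) l2
  have hXUT : ∀ x ∈ XU, κ x ∈ T := by
    intro x hx
    obtain ⟨l1, l2, -, -⟩ := hXU x hx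
    exact hs x (by omega) l2
  have h4 := Finset.sum_le_sum h2
  rw [Finset.sum_add_distrib, Finset.sum_add_distrib, Finset.sum_add_distrib, h3 _ hKB,
    h3 _ hXLT, h3 _ hXUT, Finset.sum_const, smul_eq_mul, mul_one] at h4
  have h5 : ∑ a ∈ T, ∑ x ∈ (lv P i).filter (fun x => κ x = a), e x ≤ ∑ x ∈ lv P i, e x := by
    rw [← Finset.sum_biUnion]
    · refine Finset.sum_le_sum_of_subset ?_
      intro x hx
      rw [mem_biUnion] at hx
      obtain ⟨a, -, hx⟩ := hx
      exact (mem_filter.1 hx).1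
    · intro a _ b _ hab
      rw [Function.onFun, disjoint_left]
      intro x hx hx'
      exact hab ((mem_filter.1 hx).2.symm.trans (mem_filter.1 hx').2)
  have h6 := sum_lev (i := i) e
  omega

section str

variable (H : Gr P r) (hir : i ≤ r) (hq : NoQ P (i + 2)) (hg : ∀ m, m + 1 = i → Good P m)
  (hκ : Split (i + 1) κ) (hM : Mat P i K psi)
include H hir hq hg hκ hM

/-- the equalities -/
theorem Edg.main {T : Finset ι} (hK : ∀ a ∈ T, Star i (cext (i + 1) κ a) K)
    (E : Edg i κ K psi T e) :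
    T.card = (DxD i e).card ∧
      (AL i e).card + (AU i e).card + (DxD i e).card = ∑ x, e x + (pL i e + pU i e) ∧
      (∀ x, x ∉ DxD i e → 1 ≤ e x → x ∈ bN i e) ∧
      (∀ x ∈ DxD i e, e x ≤ 2) ∧ (∀ x ∈ DxD i e, lev x = i + 1 → e x = 1) ∧
      (∀ x, lev x = i → e x = 0) ∧
      ∀ a ∈ T, ((KB i K e).filter (fun x => κ x = a)).card = 1 := by
  classical
  have h1 := slope_T1 H hir hq hg hκ hM hK E.spt E.hL E.hU E.hd
  rw [E.sk, card_empty, add_zero] at h1
  have h2 := ord_le H hir hq hg E.hL E.hU (D := DxD i e) (fun x hx => mem_DxD.1 hx)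
  have h3 := card_touch H hκ hq E.hL E.tou
  have h4 := E.eq
  obtain ⟨h5, h6, h7⟩ := ord_eq H hir hq hg E.hL E.hU (D := DxD i e) (fun x hx => mem_DxD.1 hx)
    (by omega)
  have h8 : ∀ x, lev x = i → e x = 0 := by
    intro x hx
    by_contra h0
    have h9 : x ∉ DxD i e := by
      intro h
      have := (mem_DxD.1 h).2
      unfold Dp at this
      omega
    have h10 := h5 x h9 (by omega)
    unfold bN at h10
    rcases mem_union.1 h10 with h | h
    · have := (bL_data H hir hq hg h).1
      omega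
    · have := (bU_data H hir hq hg h).1
      omega
  refine ⟨by omega, by omega, h5, h6, h7, h8, ?_⟩
  obtain ⟨XL, XU, hXL, hXU, m1⟩ := main_K hM H hir hq hg E.hL E.hU E.hd (δ := 0) (Or.inl rfl)
  have hXL0 : XL = ∅ := by
    rw [Finset.eq_empty_iff_forall_notMem]
    intro x hx
    obtain ⟨l1, l2, -, -⟩ := hXL x hx
    have := h8 x l1
    omega
  have hXU0 : XU = ∅ := by
    rw [Finset.eq_empty_iff_forall_notMem]
    intro x hx
    obtain ⟨l1, l2, -, -⟩ := hXU x hx
    have := h8 x l1
    omega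
  have h9 : ∀ a ∈ T, ((KB i K e).filter (fun x => κ x = a)).card ≤ 1 := by
    intro a ha
    have h10 := star_loc H hir hq hg hκ hM (hK a ha) E.hd hXL hXU
    have h11 : ∑ x ∈ (lv P i).filter (fun x => κ x = a), e x = 0 := by
      refine Finset.sum_eq_zero fun x hx => ?_
      exact h8 x (mem_lv.1 (mem_filter.1 hx).1)
    rw [h11] at h10
    omega
  have h12 : ∑ a ∈ T, ((KB i K e).filter (fun x => κ x = a)).card = (KB i K e).card := by
    refine (Finset.card_eq_sum_card_fiberwise ?_).symm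
    intro k hk
    have h4 := KB_bN hk
    exact E.spt k (lev_bN H hir hq hg h4) (by have := (bN_data H hir hq hg h4).2.1; omega)
  have h13 : ∑ x ∈ lv P i, e x = 0 :=
    Finset.sum_eq_zero fun x hx => h8 x (mem_lv.1 hx)
  have h14 := sum_lev (i := i) e
  rw [hXL0, hXU0, E.sk, card_empty] at m1
  have h15 : ∑ a ∈ T, ((KB i K e).filter (fun x => κ x = a)).card = ∑ a ∈ T, 1 := by
    refine le_antisymm (Finset.sum_le_sum h9) ?_
    rw [h12, Finset.sum_const, smul_eq_mul, mul_one]
    omega
  exact (Finset.sum_eq_sum_iff_of_le h9).1 h15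

/-- the relation between the touched labels and the far or single elements is a bijection -/
theorem Edg.rel {T : Finset ι} (E : Edg i κ K psi T e) (hc : T.card = (DxD i e).card) :
    (∀ x ∈ DxD i e, ∃ a ∈ T, Rtd i κ e a x) ∧
      ∀ a ∈ T, ∀ x ∈ DxD i e, ∀ x' ∈ DxD i e, Rtd i κ e a x → Rtd i κ e a x' → x = x' := by
  classical
  constructor
  · intro x hx
    by_contra hno
    push Not at hno
    have h1 : T.card ≤ ((DxD i e).erase x).card := by
      refine Finset.card_le_card_of_forall_subsingleton (fun a x => Rtd i κ e a x) ?_ ?_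
      · intro a ha
        obtain ⟨y, hy, hr⟩ := Rtd_ex H hκ E.hL (E.tou a ha)
        refine ⟨y, mem_erase.2 ⟨?_, hy⟩, hr⟩
        rintro rfl
        exact hno a ha hr
      · intro y _ a ha a' ha'
        exact Rtd_inj H hκ hq E.hL ha.2 ha'.2
    have h2 := card_erase_add_one hx
    omega
  · intro a ha x hx x' hx' hr hr'
    by_contra hne
    have h1 : T.card ≤ ((DxD i e).erase x').card := by
      refine Finset.card_le_card_of_forall_subsingleton
        (fun b y => Rtd i κ e b y ∧ y ≠ x') ?_ ?_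
      · intro b hb
        by_cases hab : b = a
        · subst hab
          exact ⟨x, mem_erase.2 ⟨hne, hx⟩, hr, hne⟩
        · obtain ⟨y, hy, hry⟩ := Rtd_ex H hκ E.hL (E.tou b hb)
          have h3 : y ≠ x' := by
            rintro rfl
            exact hab (Rtd_inj H hκ hq E.hL hry hr')
          exact ⟨y, mem_erase.2 ⟨h3, hy⟩, hry, h3⟩
      · intro y _ b hb b' hb'
        exact Rtd_inj H hκ hq E.hL hb.2.1 hb'.2.1
    have h2 := card_erase_add_one hx'
    omega

/-- the excited elements above the window -/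
theorem Edg.up (E : Edg i κ K psi T e) (hD : ∀ x, x ∉ DxD i e → 1 ≤ e x → x ∈ bN i e) {x : P}
    (hx : 1 ≤ e x) (hl : lev x < i) : lev x + 1 = i ∧ x ∈ KB i K e ∧ x ∈ bU i e ∧
      ∀ u ∈ uc x, e u = 0 := by
  classical
  have key : ∀ x, 1 ≤ e x → lev x < i → x ∈ bU i e := by
    intro x hx hl
    have h1 : x ∉ DxD i e := by
      intro h
      have := (mem_DxD.1 h).2
      unfold Dp at this
      omega
    have h2 := hD x h1 hx
    unfold bN at h2
    rcases mem_union.1 h2 with h | h
    · have := (bL_data H hir hq hg h).1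
      omega
    · exact h
  have h1 := key x hx hl
  have h2 := bU_data H hir hq hg h1
  have h3 : ∀ u ∈ uc x, e u = 0 := by
    intro u hu
    by_contra h0
    have h4 := lev_uc H hu
    have h5 := bU_data H hir hq hg (key u (by omega) (by omega))
    omega
  refine ⟨h2.1, ?_, h1, h3⟩
  rw [mem_KB]
  have hK : x ∈ K := by
    by_contra hK
    have h4 := (up_simple hM H hir hg E.hL E.hd h1 hK h3).2.1
    rw [E.sk] at h4
    exact absurd h4 (notMem_empty _)
  exact ⟨hK, Or.inr ⟨h1, h3⟩⟩

/-- the excited double elements below the window without excited lower covers -/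
theorem Edg.low (E : Edg i κ K psi T e) (hD : ∀ x, x ∉ DxD i e → 1 ≤ e x → x ∈ bN i e) {x : P}
    (hx : 1 ≤ e x) (hl : lev x = i + 1) (h2 : (uc x).card = 2) : x ∈ bL i e ∧
      ((∀ z ∈ dc x, e z = 0) → x ∈ KB i K e) := by
  classical
  have h1 : x ∉ DxD i e := by
    intro h
    have := (mem_DxD.1 h).2
    unfold Dp at this
    omega
  have h3 := hD x h1 hx
  have h4 : x ∈ bL i e := by
    unfold bN at h3
    rcases mem_union.1 h3 with h | h
    · exact h
    · have := (bU_data H hir hq hg h).1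
      omega
  refine ⟨h4, fun h0 => ?_⟩
  rw [mem_KB]
  have hK : x ∈ K := by
    by_contra hK
    have h5 := (low_simple hM H hq E.hU E.hd h4 hK h0).1
    rw [E.sk] at h5
    exact absurd h5 (notMem_empty _)
  exact ⟨hK, Or.inl ⟨h4, h0⟩⟩

/-- the excited near elements of the label of an excited element `w` outside `KB` -/
theorem Edg.near (E : Edg i κ K psi T e) (hD : ∀ x, x ∉ DxD i e → 1 ≤ e x → x ∈ bN i e)
    (hs : ∀ x, lev x = i → e x = 0)
    (h1 : ∀ a ∈ T, ((KB i K e).filter (fun x => κ x = a)).card = 1) {w : P}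
    (lw : lev w = i + 1) (ew : 1 ≤ e w) (hw : w ∉ KB i K e)
    (hx : ∀ x, 1 ≤ e x → lev x = i + 1 → κ x = κ w → x ∉ KB i K e → x = w) :
    ∃ k ∈ KB i K e, κ k = κ w ∧ k ≠ w ∧ Disjoint (ns i k) (uc w) ∧
      ∀ x, 1 ≤ e x → lev x ≤ i + 1 → κ x = κ w → x = w ∨ x = k := by
  classical
  have h2 := h1 (κ w) (E.spt w (by omega) ew)
  rw [Finset.card_eq_one] at h2
  obtain ⟨k, hk⟩ := h2
  have hk1 : k ∈ (KB i K e).filter (fun x => κ x = κ w) := by rw [hk]; exact mem_singleton_self k
  rw [mem_filter] at hk1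
  have hne : k ≠ w := by
    rintro rfl
    exact hw hk1.1
  refine ⟨k, hk1.1, hk1.2, hne, ?_, ?_⟩
  · rw [disjoint_left]
    intro a ha haw
    have hla := lev_uc H haw
    have ha0 := hs a (by omega)
    have hkb := hk1.1
    rw [mem_KB] at hkb
    rcases hkb.2 with ⟨hb, -⟩ | ⟨hb, -⟩
    · have h3 := (bL_data H hir hq hg hb).2.2.2.2.2 a ha ha0
      have h4 : w ∈ kr dc e a := mem_kr.2 ⟨mem_dc.2 (mem_uc.1 haw), by omega⟩
      rw [h3, mem_singleton] at h4
      exact hne h4.symm
    · obtain ⟨l2, -, e2, n2, -, -⟩ := bU_data H hir hq hg hb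
      rw [n2] at ha
      have h4 : a ∈ AL i e := by
        rw [NormD_mem_AL]
        exact ⟨by omega, w, mem_uc.1 haw, by omega⟩
      have h5 : a ∈ AU i e := by
        rw [NormD_mem_AU]
        exact ⟨by omega, k, mem_dc.1 ha, by omega⟩
      exact disjoint_left.1 E.hd h4 h5
  · intro x ex lx hxw
    by_cases hxK : x ∈ KB i K e
    · right
      have h3 : x ∈ (KB i K e).filter (fun x => κ x = κ w) := mem_filter.2 ⟨hxK, hxw⟩
      rw [hk, mem_singleton] at h3
      exact h3
    · left
      have h4 : lev x = i ∨ lev x < i ∨ lev x = i + 1 := by omega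
      rcases h4 with h4 | h4 | h4
      · have := hs x h4
        omega
      · exact absurd (E.up H hir hq hg hκ hM hD ex h4).2.1 hxK
      · exact hx x ex h4 hxw hxK

/-- THE STRUCTURE AT AN EXCITED CROSS ELEMENT -/
theorem Edg.cross (hK : ∀ a ∈ T, Star i (cext (i + 1) κ a) K) (E : Edg i κ K psi T e) {z : P}
    (hz : z ∉ cuni (i + 1) κ) (h0 : 1 ≤ e z) :
    ∃ y v, SD i κ z y v ∧ e y = 1 ∧ e v = 1 ∧ ∀ w, w = y ∨ w = v →
      ∃ k ∈ KB i K e, κ k = κ w ∧ k ≠ w ∧ Disjoint (ns i k) (uc w) ∧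
        ∀ x, 1 ≤ e x → lev x ≤ i + 1 → κ x = κ w → x = w ∨ x = k := by
  classical
  obtain ⟨hc, -, hD, -, hD1, hs, h1⟩ := E.main H hir hq hg hκ hM hK
  obtain ⟨r1, r2⟩ := E.rel H hir hq hg hκ hM hc
  have hl := (two_up H hκ hz).1
  have hzD : z ∈ DxD i e := mem_DxD.2 ⟨h0, Or.inl (by omega)⟩
  obtain ⟨a, haT, hr⟩ := r1 z hzD
  have hr' := hr
  rcases hr with ⟨h3, -⟩ | ⟨lz, -, ⟨p, hp, lp, kp⟩, hno⟩
  · omega
  obtain ⟨p1, p2, hk, huc⟩ := So.two_labels H hκ hz lz
  have ex : ∀ {x q : P}, x ∈ uc q → 1 ≤ e q → i + 2 ≤ lev q → 1 ≤ e x := by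
    intro x q hx hq' hl'
    have := lev_uc H hx
    exact exc_le H E.hL hq' (mem_uc.1 hx).le (by omega)
  have c0 : ∀ {x : P}, lev x = i + 1 → (uc x).card = 1 ∨ (uc x).card = 2 := by
    intro x hx
    have c1 := uc_card_le H x
    have c3 : 0 < (uc x).card := card_pos.2 (uc_nonempty H (by omega))
    omega
  have hp2 : (uc p).card = 2 := by
    rcases c0 lp with h | h
    · have h4 := hno p lp h kp
      have h5 := ex hp h0 (by omega)
      omega
    · exact h
  -- the other cover
  obtain ⟨v, hv, hkv, huv⟩ : ∃ v, v ∈ uc z ∧ κ p ≠ κ v ∧ uc z = {p, v} := by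
    have h4 := hp
    rw [huc, mem_insert, mem_singleton] at h4
    rcases h4 with rfl | rfl
    · exact ⟨p2, by rw [huc]; exact mem_insert_of_mem (mem_singleton_self _), hk, huc⟩
    · exact ⟨p1, by rw [huc]; exact mem_insert_self _ _, fun h => hk h.symm,
        by rw [huc, pair_comm]⟩
  have lv' := lev_uc H hv
  have hv1 : (uc v).card = 1 := by
    rcases one_single H hκ hq lz huv hkv with h | h | h <;> omega
  have ep := ex hp h0 (by omega)
  have ev := ex hv h0 (by omega)
  have hvD : v ∈ DxD i e := mem_DxD.2 ⟨ev, Or.inr ⟨by omega, hv1⟩⟩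
  have ev1 := hD1 v hvD (by omega)
  have hpL := (E.low H hir hq hg hκ hM hD ep lp hp2).1
  have ep1 := (bL_data H hir hq hg hpL).2.2.1
  have S : SD i κ z p v := ⟨lz, huv, hkv, hp2, hv1⟩
  refine ⟨p, v, S, ep1, ev1, ?_⟩
  rintro w (rfl | rfl)
  · refine E.near H hir hq hg hκ hM hD hs h1 lp ep ?_ ?_
    · intro h
      rw [mem_KB] at h
      rcases h.2 with ⟨-, h4⟩ | ⟨h4, -⟩
      · have := h4 z (mem_dc.2 (mem_uc.1 hp))
        omega
      · have := (bU_data H hir hq hg h4).1
        omega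
    · intro x ex' lx kx hxK
      rcases c0 lx with h | h
      · have := hno x lx h (kx.trans kp)
        omega
      · have h4 := (E.low H hir hq hg hκ hM hD ex' lx h).2
        have h5 : ∃ q ∈ dc x, 1 ≤ e q := by
          by_contra hno'
          push Not at hno'
          exact hxK (h4 fun q hq' => by have := hno' q hq'; omega)
        obtain ⟨q, hqx, eq⟩ := h5
        have lq := lev_dc H hqx
        have hqD : q ∈ DxD i e := mem_DxD.2 ⟨eq, Or.inl (by omega)⟩
        have hxq : x ∈ uc q := mem_uc.2 (mem_dc.1 hqx)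
        have h6 := r2 a haT q hqD z hzD (Or.inr ⟨by omega, eq, ⟨x, hxq, lx, kx.trans kp⟩, hno⟩) hr'
        rw [h6, huv, mem_insert, mem_singleton] at hxq
        rcases hxq with h7 | h7
        · exact h7
        · rw [h7] at kx
          exact absurd kx.symm hkv
  · refine E.near H hir hq hg hκ hM hD hs h1 (by omega) ev ?_ ?_
    · intro h
      rw [mem_KB] at h
      rcases h.2 with ⟨h4, -⟩ | ⟨h4, -⟩
      · have := (bL_data H hir hq hg h4).2.1
        omega
      · have := (bU_data H hir hq hg h4).1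
        omega
    · intro x ex' lx kx hxK
      rcases c0 lx with h | h
      · have hxD : x ∈ DxD i e := mem_DxD.2 ⟨ex', Or.inr ⟨by omega, h⟩⟩
        exact r2 (κ w) (E.spt w (by omega) ev) x hxD w hvD (Or.inl ⟨lx, h, kx, ex'⟩)
          (Or.inl ⟨by omega, hv1, rfl, ev⟩)
      · have h4 := (E.low H hir hq hg hκ hM hD ex' lx h).2
        have h5 : ∃ q ∈ dc x, 1 ≤ e q := by
          by_contra hno'
          push Not at hno'
          exact hxK (h4 fun q hq' => by have := hno' q hq'; omega)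
        exfalso
        obtain ⟨q, hqx, eq⟩ := h5
        have lq := lev_dc H hqx
        have hqD : q ∈ DxD i e := mem_DxD.2 ⟨eq, Or.inl (by omega)⟩
        have hxq : x ∈ uc q := mem_uc.2 (mem_dc.1 hqx)
        obtain ⟨b, hbT, hb⟩ := r1 q hqD
        rcases hb with ⟨h6, -⟩ | ⟨lq', -, ⟨p', hp', lp', kp'⟩, hno'⟩
        · omega
        · have h7 : κ p' ≠ κ x := by
            rw [kp', kx]
            rintro rfl
            have := hno' w (by omega) hv1 rfl
            omega
          have ep' := ex hp' eq (by omega)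
          have h8 := uc_pair H hp' hxq (fun h => h7 (by rw [h]))
          rcases one_single H hκ hq lq' h8 h7 with h9 | h9 | h9
          · omega
          · have := hno' p' lp' h9.1 kp'
            omega
          · omega

end str

end Pool.Agent.GaussPoset.Win.K2
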