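import Pool.Agent.W_448so_h63.GH

/-!
MP_448cb3_co, G2, case B, window `j`: adding one unit on a near double element.  helper10.
-/

namespace Pool.Agent.GaussPoset.Win.K2

set_option linter.unusedSectionVars false

open Finset I2

universe u

variable {P : Type u} [Fintype P] [PartialOrder P] [DecidableEq P] {r i : ℕ} {e : P → ℕ}

/-- one more unit at `k` -/
def up1 (e : P → ℕ) (k : P) : P → ℕ := Function.update e k 1

lemma up1_self (e : P → ℕ) (k : P) : up1 e k k = 1 := Function.update_self _ _ _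

lemma up1_ne {e : P → ℕ} {k x : P} (h : x ≠ k) : up1 e k x = e x := Function.update_of_ne h _ _

lemma sum_up1 {e : P → ℕ} {k : P} (h0 : e k = 0) : ∑ x, up1 e k x = ∑ x, e x + 1 := by
  rw [← Finset.add_sum_erase univ _ (mem_univ k), ← Finset.add_sum_erase univ e (mem_univ k),
    up1_self, h0]
  have : ∑ x ∈ univ.erase k, up1 e k x = ∑ x ∈ univ.erase k, e x :=
    Finset.sum_congr rfl fun x hx => up1_ne (mem_erase.1 hx).1
  rw [this]
  omega

/-- the unit can be added below the window -/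
structure AddL (i : ℕ) (e : P → ℕ) (k : P) : Prop where
  md : k ∈ dbL P i
  h0 : e k = 0
  dz : ∀ z ∈ dc k, e z = 0
  ux : ∀ x ∈ uc k, e x = 0
  al : ∀ x ∈ uc k, x ∉ AL i e
  au : ∀ x ∈ uc k, x ∉ AU i e

/-- the unit can be added above the window -/
structure AddU (i : ℕ) (e : P → ℕ) (k : P) : Prop where
  md : k ∈ dbU P i
  h0 : e k = 0
  uz : ∀ z ∈ uc k, e z = 0
  dx : ∀ x ∈ dc k, e x = 0
  al : ∀ x ∈ dc k, x ∉ AL i e
  au : ∀ x ∈ dc k, x ∉ AU i e

section low

variable (H : Gr P r) {k : P} (h : AddL i e k)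
include H h

lemma AddL.fd (z : P) : FD (up1 e k) z ↔ Win.FD e z ∨ z ∈ uc k := by
  by_cases hzk : z = k
  · subst hzk
    constructor
    · rintro ⟨z', h1, h2⟩
      rw [up1_self, up1_ne h1.lt.ne, h.dz z' (mem_dc.2 h1)] at h2
      omega
    · rintro (⟨z', h1, h2⟩ | h1)
      · rw [h.dz z' (mem_dc.2 h1)] at h2
        omega
      · exact absurd (mem_uc.1 h1).lt (lt_irrefl _)
  · constructor
    · rintro ⟨z', h1, h2⟩
      by_cases h3 : z' = k
      · right
        rw [h3] at h1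
        exact mem_uc.2 h1
      · left
        rw [up1_ne hzk, up1_ne h3] at h2
        exact ⟨z', h1, h2⟩
    · rintro (⟨z', h1, h2⟩ | h1)
      · refine ⟨z', h1, ?_⟩
        by_cases h3 : z' = k
        · rw [h3, h.h0] at h2
          omega
        · rw [up1_ne hzk, up1_ne h3]
          exact h2
      · refine ⟨k, mem_uc.1 h1, ?_⟩
        rw [up1_ne hzk, up1_self, h.ux z h1]
        omega

lemma AddL.fdk : ¬ Win.FD e k := by
  rintro ⟨z', h1, h2⟩
  rw [h.dz z' (mem_dc.2 h1)] at h2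
  omega

lemma AddL.gu {z : P} (hz : z ≠ k) : GU (up1 e k) z ↔ Win.GU e z := by
  constructor
  · rintro ⟨y, h1, h2⟩
    by_cases h3 : y = k
    · rw [h3] at h1
      refine ⟨k, h1, ?_⟩
      rw [h.dz z (mem_dc.2 h1)]
      omega
    · rw [up1_ne hz, up1_ne h3] at h2
      exact ⟨y, h1, h2⟩
  · rintro ⟨y, h1, h2⟩
    refine ⟨y, h1, ?_⟩
    by_cases h3 : y = k
    · rw [h3, h.h0] at h2
      rw [up1_ne hz, h3, up1_self]
      omega
    · rw [up1_ne hz, up1_ne h3]
      exact h2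

lemma AddL.guk : ¬ GU (up1 e k) k := by
  rintro ⟨y, h1, h2⟩
  rw [up1_self, up1_ne h1.lt.ne', h.ux y (mem_uc.2 h1)] at h2
  omega

lemma AddL.guk' : Win.GU e k := by
  have h1 := mem_dbL'.1 h.md
  obtain ⟨y, hy⟩ := uc_nonempty H (x := k) (by omega)
  exact ⟨y, mem_uc.1 hy, by rw [h.h0]; omega⟩

lemma AddL.fu {u : P} (hu : lev u ≤ i) : FU (up1 e k) u ↔ Win.FU e u := by
  have h1 := mem_dbL'.1 h.md
  have hne : u ≠ k := by rintro rfl; omega
  have hne' : ∀ {y}, u ⋖ y → y ≠ k := by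
    rintro y hy rfl
    have := lev_uc H (mem_uc.2 hy)
    omega
  constructor
  · rintro ⟨y, h2, h3⟩
    rw [up1_ne hne, up1_ne (hne' h2)] at h3
    exact ⟨y, h2, h3⟩
  · rintro ⟨y, h2, h3⟩
    refine ⟨y, h2, ?_⟩
    rw [up1_ne hne, up1_ne (hne' h2)]
    exact h3

lemma AddL.gd {u : P} (hu : lev u < i) : GD (up1 e k) u ↔ Win.GD e u := by
  have h1 := mem_dbL'.1 h.md
  have hne : u ≠ k := by rintro rfl; omega
  have hne' : ∀ {y}, y ⋖ u → y ≠ k := by
    rintro y hy rfl
    have := lev_uc H (mem_uc.2 hy)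
    omega
  constructor
  · rintro ⟨y, h2, h3⟩
    rw [up1_ne hne, up1_ne (hne' h2)] at h3
    exact ⟨y, h2, h3⟩
  · rintro ⟨y, h2, h3⟩
    refine ⟨y, h2, ?_⟩
    rw [up1_ne hne, up1_ne (hne' h2)]
    exact h3

lemma AddL.sAL : AL i (up1 e k) = Win.AL i e ∪ uc k := by
  have h1 := mem_dbL'.1 h.md
  ext x
  rw [mem_union, NormD_mem_AL, NormD_mem_AL, h.fd H]
  constructor
  · rintro ⟨h2, h3 | h3⟩
    · exact Or.inl ⟨h2, h3⟩
    · exact Or.inr h3
  · rintro (⟨h2, h3⟩ | h3)
    · exact ⟨h2, Or.inl h3⟩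
    · have := lev_uc H h3
      exact ⟨by omega, Or.inr h3⟩

lemma AddL.sAU : AU i (up1 e k) = Win.AU i e := by
  ext x
  rw [NormD_mem_AU, NormD_mem_AU]
  constructor
  · rintro ⟨h2, h3⟩
    exact ⟨h2, (h.fu H (by omega)).1 h3⟩
  · rintro ⟨h2, h3⟩
    exact ⟨h2, (h.fu H (by omega)).2 h3⟩

lemma AddL.cAL : (Win.AL i (up1 e k)).card = (Win.AL i e).card + 2 := by
  rw [h.sAL H, card_union_of_disjoint, (mem_dbL'.1 h.md).2]
  rw [disjoint_right]
  exact h.al

lemma AddL.naL : aL i (up1 e k) = Win.aL i e := by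
  classical
  have h1 := mem_dbL'.1 h.md
  unfold Win.aL
  congr 1
  ext z
  simp only [Finset.mem_filter, Finset.mem_univ, true_and]
  rw [h.fd H]
  constructor
  · rintro ⟨h2, h3 | h3⟩
    · exact ⟨h2, h3⟩
    · have := lev_uc H h3
      omega
  · rintro ⟨h2, h3⟩
    exact ⟨h2, Or.inl h3⟩

lemma AddL.npL : pL i (up1 e k) = Win.pL i e + 1 := by
  classical
  have h1 := mem_dbL'.1 h.md
  unfold Win.pL
  rw [← Finset.card_insert_of_notMem (a := k)]
  · congr 1
    ext z
    simp only [Finset.mem_insert, Finset.mem_filter, Finset.mem_univ, true_and]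
    rw [h.fd H]
    by_cases hz : z = k
    · subst hz
      simp only [true_or, iff_true]
      refine ⟨by omega, ?_, h.guk H⟩
      rintro (h2 | h2)
      · exact h.fdk H h2
      · exact lt_irrefl _ (mem_uc.1 h2).lt
    · rw [h.gu H hz]
      constructor
      · rintro ⟨h2, h3, h4⟩
        exact Or.inr ⟨h2, fun h5 => h3 (Or.inl h5), h4⟩
      · rintro (h2 | ⟨h2, h3, h4⟩)
        · exact absurd h2 hz
        · refine ⟨h2, ?_, h4⟩
          rintro (h5 | h5)
          · exact h3 h5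
          · have := lev_uc H h5
            omega
  · simp only [Finset.mem_filter, Finset.mem_univ, true_and, not_and, not_not]
    intro _ _
    exact h.guk' H

lemma AddL.naU : aU i (up1 e k) = Win.aU i e := by
  classical
  unfold Win.aU
  congr 1
  ext z
  simp only [Finset.mem_filter, Finset.mem_univ, true_and]
  constructor
  · rintro ⟨h2, h3⟩
    exact ⟨h2, (h.fu H (by omega)).1 h3⟩
  · rintro ⟨h2, h3⟩
    exact ⟨h2, (h.fu H (by omega)).2 h3⟩

lemma AddL.npU : pU i (up1 e k) = Win.pU i e := by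
  classical
  unfold Win.pU
  congr 1
  ext z
  simp only [Finset.mem_filter, Finset.mem_univ, true_and]
  constructor
  · rintro ⟨h2, h3, h4⟩
    exact ⟨h2, fun h5 => h3 ((h.fu H (by omega)).2 h5), fun h5 => h4 ((h.gd H h2).2 h5)⟩
  · rintro ⟨h2, h3, h4⟩
    exact ⟨h2, fun h5 => h3 ((h.fu H (by omega)).1 h5), fun h5 => h4 ((h.gd H h2).1 h5)⟩

lemma AddL.admL : AdmL i (up1 e k) ↔ Win.AdmL i e := by
  have h1 := mem_dbL'.1 h.md
  constructor
  · intro h2 z hz h3
    by_cases hzk : z = k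
    · rw [hzk] at h3
      exact h.fdk H h3.1
    · exact h2 z hz ⟨(h.fd H z).2 (Or.inl h3.1), (h.gu H hzk).2 h3.2⟩
  · intro h2 z hz h3
    by_cases hzk : z = k
    · rw [hzk] at h3
      exact h.guk H h3.2
    · refine h2 z hz ⟨?_, (h.gu H hzk).1 h3.2⟩
      rcases (h.fd H z).1 h3.1 with h4 | h4
      · exact h4
      · have := lev_uc H h4
        omega

lemma AddL.admU : AdmU i (up1 e k) ↔ Win.AdmU i e := by
  constructor
  · intro h2 u hu h3
    exact h2 u hu ⟨(h.fu H (by omega)).2 h3.1, (h.gd H hu).2 h3.2⟩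
  · intro h2 u hu h3
    exact h2 u hu ⟨(h.fu H (by omega)).1 h3.1, (h.gd H hu).1 h3.2⟩

lemma AddL.dis : Disjoint (Win.AL i (up1 e k)) (Win.AU i (up1 e k)) ↔
    Disjoint (Win.AL i e) (Win.AU i e) := by
  rw [h.sAL H, h.sAU H, disjoint_union_left]
  constructor
  · exact fun h1 => h1.1
  · intro h1
    refine ⟨h1, ?_⟩
    rw [disjoint_left]
    exact h.au

/-- THE TERM -/
theorem AddL.term {C : Finset P} (hC : Part i C) (hs : Spt C e) (hk : k ∈ C) :
    tC i C (up1 e k) * dd = xx ^ 2 * Win.tC i C e := by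
  unfold Win.tC
  by_cases hd : Disjoint (Win.AL i e) (Win.AU i e)
  · have hd' := (h.dis H).2 hd
    rw [if_pos hd, if_pos hd']
    unfold cw
    by_cases hA : Win.AdmL i e ∧ Win.AdmU i e
    · have hA' : Win.AdmL i (up1 e k) ∧ Win.AdmU i (up1 e k) :=
        ⟨(h.admL H).2 hA.1, (h.admU H).2 hA.2⟩
      rw [if_pos hA, if_pos hA']
      have hs' : Spt C (up1 e k) := by
        intro x hx
        have hxk : x ≠ k := by rintro rfl; exact hx hk
        rw [up1_ne hxk]
        exact hs x hx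
      have h1 := card_le_card (union_subset (AL_sub hC hs') (AU_sub H hC hs'))
      rw [card_union_of_disjoint hd', h.cAL H, h.sAU H] at h1
      rw [h.naL H, h.naU H, h.npL H, h.npU H, h.cAL H, h.sAU H]
      obtain ⟨m, hm⟩ : ∃ m, (st i C).card = (Win.AL i e).card + 2 + (Win.AU i e).card + m :=
        ⟨_, (Nat.add_sub_of_le h1).symm⟩
      have e1 : (st i C).card - ((Win.AL i e).card + 2) - (Win.AU i e).card = m := by omega
      have e2 : (st i C).card - (Win.AL i e).card - (Win.AU i e).card = m + 2 := by omega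
      rw [e1, e2]
      ring
    · have hA' : ¬ (Win.AdmL i (up1 e k) ∧ Win.AdmU i (up1 e k)) :=
        fun h2 => hA ⟨(h.admL H).1 h2.1, (h.admU H).1 h2.2⟩
      rw [if_neg hA, if_neg hA']
      ring
  · have hd' : ¬ Disjoint (Win.AL i (up1 e k)) (Win.AU i (up1 e k)) :=
      fun h2 => hd ((h.dis H).1 h2)
    rw [if_neg hd, if_neg hd']
    ring

end low

section upp

variable (H : Gr P r) (hir : i ≤ r) {k : P} (h : AddU i e k)
include H h

lemma AddU.fu (z : P) : FU (up1 e k) z ↔ Win.FU e z ∨ z ∈ dc k := by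
  by_cases hzk : z = k
  · subst hzk
    constructor
    · rintro ⟨z', h1, h2⟩
      rw [up1_self, up1_ne h1.lt.ne', h.uz z' (mem_uc.2 h1)] at h2
      omega
    · rintro (⟨z', h1, h2⟩ | h1)
      · rw [h.uz z' (mem_uc.2 h1)] at h2
        omega
      · exact absurd (mem_dc.1 h1).lt (lt_irrefl _)
  · constructor
    · rintro ⟨z', h1, h2⟩
      by_cases h3 : z' = k
      · right
        rw [h3] at h1
        exact mem_dc.2 h1
      · left
        rw [up1_ne hzk, up1_ne h3] at h2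
        exact ⟨z', h1, h2⟩
    · rintro (⟨z', h1, h2⟩ | h1)
      · refine ⟨z', h1, ?_⟩
        by_cases h3 : z' = k
        · rw [h3, h.h0] at h2
          omega
        · rw [up1_ne hzk, up1_ne h3]
          exact h2
      · refine ⟨k, mem_dc.1 h1, ?_⟩
        rw [up1_ne hzk, up1_self, h.dx z h1]
        omega

lemma AddU.fuk : ¬ Win.FU e k := by
  rintro ⟨z', h1, h2⟩
  rw [h.uz z' (mem_uc.2 h1)] at h2
  omega

lemma AddU.gd {z : P} (hz : z ≠ k) : GD (up1 e k) z ↔ Win.GD e z := by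
  constructor
  · rintro ⟨y, h1, h2⟩
    by_cases h3 : y = k
    · rw [h3] at h1
      refine ⟨k, h1, ?_⟩
      rw [h.uz z (mem_uc.2 h1)]
      omega
    · rw [up1_ne hz, up1_ne h3] at h2
      exact ⟨y, h1, h2⟩
  · rintro ⟨y, h1, h2⟩
    refine ⟨y, h1, ?_⟩
    by_cases h3 : y = k
    · rw [h3, h.h0] at h2
      rw [up1_ne hz, h3, up1_self]
      omega
    · rw [up1_ne hz, up1_ne h3]
      exact h2

lemma AddU.gdk : ¬ GD (up1 e k) k := by
  rintro ⟨y, h1, h2⟩
  rw [up1_self, up1_ne h1.lt.ne, h.dx y (mem_dc.2 h1)] at h2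
  omega

lemma AddU.gdk' : Win.GD e k := by
  have h1 := mem_dbU'.1 h.md
  have h2 : (dc k).Nonempty := card_pos.1 (by omega)
  obtain ⟨y, hy⟩ := h2
  exact ⟨y, mem_dc.1 hy, by rw [h.h0]; omega⟩

lemma AddU.fd {u : P} (hu : i ≤ lev u) : FD (up1 e k) u ↔ Win.FD e u := by
  have h1 := mem_dbU'.1 h.md
  have hne : u ≠ k := by rintro rfl; omega
  have hne' : ∀ {y}, y ⋖ u → y ≠ k := by
    rintro y hy rfl
    have := lev_uc H (mem_uc.2 hy)
    omega
  constructor
  · rintro ⟨y, h2, h3⟩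
    rw [up1_ne hne, up1_ne (hne' h2)] at h3
    exact ⟨y, h2, h3⟩
  · rintro ⟨y, h2, h3⟩
    refine ⟨y, h2, ?_⟩
    rw [up1_ne hne, up1_ne (hne' h2)]
    exact h3

lemma AddU.gu {u : P} (hu : i < lev u) : GU (up1 e k) u ↔ Win.GU e u := by
  have h1 := mem_dbU'.1 h.md
  have hne : u ≠ k := by rintro rfl; omega
  have hne' : ∀ {y}, u ⋖ y → y ≠ k := by
    rintro y hy rfl
    have := lev_uc H (mem_uc.2 hy)
    omega
  constructor
  · rintro ⟨y, h2, h3⟩
    rw [up1_ne hne, up1_ne (hne' h2)] at h3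
    exact ⟨y, h2, h3⟩
  · rintro ⟨y, h2, h3⟩
    refine ⟨y, h2, ?_⟩
    rw [up1_ne hne, up1_ne (hne' h2)]
    exact h3

lemma AddU.sAU : AU i (up1 e k) = Win.AU i e ∪ dc k := by
  have h1 := mem_dbU'.1 h.md
  ext x
  rw [mem_union, NormD_mem_AU, NormD_mem_AU, h.fu H]
  constructor
  · rintro ⟨h2, h3 | h3⟩
    · exact Or.inl ⟨h2, h3⟩
    · exact Or.inr h3
  · rintro (⟨h2, h3⟩ | h3)
    · exact ⟨h2, Or.inl h3⟩
    · have := lev_dc H h3
      exact ⟨by omega, Or.inr h3⟩

lemma AddU.sAL : AL i (up1 e k) = Win.AL i e := by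
  ext x
  rw [NormD_mem_AL, NormD_mem_AL]
  constructor
  · rintro ⟨h2, h3⟩
    exact ⟨h2, (h.fd H (by omega)).1 h3⟩
  · rintro ⟨h2, h3⟩
    exact ⟨h2, (h.fd H (by omega)).2 h3⟩

lemma AddU.cAU : (Win.AU i (up1 e k)).card = (Win.AU i e).card + 2 := by
  rw [h.sAU H, card_union_of_disjoint, (mem_dbU'.1 h.md).2]
  rw [disjoint_right]
  exact h.au

lemma AddU.naU : aU i (up1 e k) = Win.aU i e := by
  classical
  have h1 := mem_dbU'.1 h.md
  unfold Win.aU
  congr 1
  ext z
  simp only [Finset.mem_filter, Finset.mem_univ, true_and]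
  rw [h.fu H]
  constructor
  · rintro ⟨h2, h3 | h3⟩
    · exact ⟨h2, h3⟩
    · have := lev_dc H h3
      omega
  · rintro ⟨h2, h3⟩
    exact ⟨h2, Or.inl h3⟩

lemma AddU.npU : pU i (up1 e k) = Win.pU i e + 1 := by
  classical
  have h1 := mem_dbU'.1 h.md
  unfold Win.pU
  rw [← Finset.card_insert_of_notMem (a := k)]
  · congr 1
    ext z
    simp only [Finset.mem_insert, Finset.mem_filter, Finset.mem_univ, true_and]
    rw [h.fu H]
    by_cases hz : z = k
    · subst hz
      simp only [true_or, iff_true]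
      refine ⟨by omega, ?_, h.gdk H⟩
      rintro (h2 | h2)
      · exact h.fuk H h2
      · exact lt_irrefl _ (mem_dc.1 h2).lt
    · rw [h.gd H hz]
      constructor
      · rintro ⟨h2, h3, h4⟩
        exact Or.inr ⟨h2, fun h5 => h3 (Or.inl h5), h4⟩
      · rintro (h2 | ⟨h2, h3, h4⟩)
        · exact absurd h2 hz
        · refine ⟨h2, ?_, h4⟩
          rintro (h5 | h5)
          · exact h3 h5
          · have := lev_dc H h5
            omega
  · simp only [Finset.mem_filter, Finset.mem_univ, true_and, not_and, not_not]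
    intro _ _
    exact h.gdk' H

lemma AddU.naL : aL i (up1 e k) = Win.aL i e := by
  classical
  unfold Win.aL
  congr 1
  ext z
  simp only [Finset.mem_filter, Finset.mem_univ, true_and]
  constructor
  · rintro ⟨h2, h3⟩
    exact ⟨h2, (h.fd H (by omega)).1 h3⟩
  · rintro ⟨h2, h3⟩
    exact ⟨h2, (h.fd H (by omega)).2 h3⟩

lemma AddU.npL : pL i (up1 e k) = Win.pL i e := by
  classical
  unfold Win.pL
  congr 1
  ext z
  simp only [Finset.mem_filter, Finset.mem_univ, true_and]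
  constructor
  · rintro ⟨h2, h3, h4⟩
    exact ⟨h2, fun h5 => h3 ((h.fd H (by omega)).2 h5), fun h5 => h4 ((h.gu H h2).2 h5)⟩
  · rintro ⟨h2, h3, h4⟩
    exact ⟨h2, fun h5 => h3 ((h.fd H (by omega)).1 h5), fun h5 => h4 ((h.gu H h2).1 h5)⟩

lemma AddU.admU : AdmU i (up1 e k) ↔ Win.AdmU i e := by
  have h1 := mem_dbU'.1 h.md
  constructor
  · intro h2 z hz h3
    by_cases hzk : z = k
    · rw [hzk] at h3
      exact h.fuk H h3.1
    · exact h2 z hz ⟨(h.fu H z).2 (Or.inl h3.1), (h.gd H hzk).2 h3.2⟩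
  · intro h2 z hz h3
    by_cases hzk : z = k
    · rw [hzk] at h3
      exact h.gdk H h3.2
    · refine h2 z hz ⟨?_, (h.gd H hzk).1 h3.2⟩
      rcases (h.fu H z).1 h3.1 with h4 | h4
      · exact h4
      · have := lev_dc H h4
        omega

lemma AddU.admL : AdmL i (up1 e k) ↔ Win.AdmL i e := by
  constructor
  · intro h2 u hu h3
    exact h2 u hu ⟨(h.fd H (by omega)).2 h3.1, (h.gu H hu).2 h3.2⟩
  · intro h2 u hu h3
    exact h2 u hu ⟨(h.fd H (by omega)).1 h3.1, (h.gu H hu).1 h3.2⟩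

lemma AddU.dis : Disjoint (Win.AL i (up1 e k)) (Win.AU i (up1 e k)) ↔
    Disjoint (Win.AL i e) (Win.AU i e) := by
  rw [h.sAL H, h.sAU H, disjoint_union_right]
  constructor
  · exact fun h1 => h1.1
  · intro h1
    refine ⟨h1, ?_⟩
    rw [disjoint_right]
    exact h.al

/-- THE TERM -/
theorem AddU.term {C : Finset P} (hC : Part i C) (hs : Spt C e) (hk : k ∈ C) :
    tC i C (up1 e k) * dd = xi * Win.tC i C e := by
  unfold Win.tC
  by_cases hd : Disjoint (Win.AL i e) (Win.AU i e)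
  · have hd' := (h.dis H).2 hd
    rw [if_pos hd, if_pos hd']
    unfold cw
    by_cases hA : Win.AdmL i e ∧ Win.AdmU i e
    · have hA' : Win.AdmL i (up1 e k) ∧ Win.AdmU i (up1 e k) :=
        ⟨(h.admL H).2 hA.1, (h.admU H).2 hA.2⟩
      rw [if_pos hA, if_pos hA']
      have hs' : Spt C (up1 e k) := by
        intro x hx
        have hxk : x ≠ k := by rintro rfl; exact hx hk
        rw [up1_ne hxk]
        exact hs x hx
      have h1 := card_le_card (union_subset (AL_sub hC hs') (AU_sub H hC hs'))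
      rw [card_union_of_disjoint hd', h.cAU H, h.sAL H] at h1
      rw [h.naL H, h.naU H, h.npL H, h.npU H, h.cAU H, h.sAL H]
      obtain ⟨m, hm⟩ : ∃ m, (st i C).card = (Win.AL i e).card + ((Win.AU i e).card + 2) + m :=
        ⟨_, (Nat.add_sub_of_le h1).symm⟩
      have e1 : (st i C).card - (Win.AL i e).card - ((Win.AU i e).card + 2) = m := by omega
      have e2 : (st i C).card - (Win.AL i e).card - (Win.AU i e).card = m + 2 := by omega
      rw [e1, e2]
      ring
    · have hA' : ¬ (Win.AdmL i (up1 e k) ∧ Win.AdmU i (up1 e k)) :=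
        fun h2 => hA ⟨(h.admL H).1 h2.1, (h.admU H).1 h2.2⟩
      rw [if_neg hA, if_neg hA']
      ring
  · have hd' : ¬ Disjoint (Win.AL i (up1 e k)) (Win.AU i (up1 e k)) :=
      fun h2 => hd ((h.dis H).1 h2)
    rw [if_neg hd, if_neg hd']
    ring

end upp

end Pool.Agent.GaussPoset.Win.K2
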