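import Pool.Agent.W_448ua_h10.UaF
import Pool.Agent.W_448ua_h10.UaG

/-!
MP_448cb3_co, G2, case B, window `j`: moving the unit of one label in a configuration on the edge.
helper10.
-/

namespace Pool.Agent.GaussPoset.Win.K2

set_option linter.unusedSectionVars false

open Finset I2

universe u

variable {P : Type u} [Fintype P] [PartialOrder P] [DecidableEq P] {r i : ℕ} {e : P → ℕ}

variable {ι : Type*} [DecidableEq ι] {κ : P → ι} {K : Finset P} {psi : P → P} {T : Finset ι}

/-- the unit at `k` is removed -/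
def dn1 (e : P → ℕ) (k : P) : P → ℕ := Function.update e k 0

lemma dn1_self (e : P → ℕ) (k : P) : dn1 e k k = 0 := Function.update_self _ _ _

lemma dn1_ne {e : P → ℕ} {k x : P} (h : x ≠ k) : dn1 e k x = e x := Function.update_of_ne h _ _

lemma up1_dn1 {e : P → ℕ} {k : P} (h : e k = 1) : up1 (dn1 e k) k = e := by
  funext x
  by_cases hx : x = k
  · rw [hx, up1_self, h]
  · rw [up1_ne hx, dn1_ne hx]

/-- a unit can be added -/
def Adds (i : ℕ) (e : P → ℕ) (k : P) : Prop := AddL i e k ∨ AddU i e k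

/-- the factor of a unit -/
noncomputable def uf (i : ℕ) (k : P) : A := if lev k = i + 1 then xx ^ 2 else xi

section adds

variable (H : Gr P r) {k : P} (h : Adds i e k)
include H h

lemma Adds.data : (AdmL i (up1 e k) ↔ AdmL i e) ∧ (AdmU i (up1 e k) ↔ AdmU i e) ∧
    (Disjoint (AL i (up1 e k)) (AU i (up1 e k)) ↔ Disjoint (AL i e) (AU i e)) ∧
    (AL i (up1 e k)).card + (AU i (up1 e k)).card = (AL i e).card + (AU i e).card + 2 ∧
    pL i (up1 e k) + pU i (up1 e k) = pL i e + pU i e + 1 := by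
  rcases h with h | h
  · refine ⟨h.admL H, h.admU H, h.dis H, ?_, ?_⟩
    · rw [h.cAL H, h.sAU H]
      omega
    · rw [h.npL H, h.npU H]
      omega
  · refine ⟨h.admL H, h.admU H, h.dis H, ?_, ?_⟩
    · rw [h.cAU H, h.sAL H]
      omega
    · rw [h.npL H, h.npU H]
      omega

lemma Adds.term {C : Finset P} (hC : Part i C) (hs : Spt C e) (hk : k ∈ C) :
    tC i C (up1 e k) * dd = uf i k * Win.tC i C e := by
  unfold uf
  rcases h with h | h
  · rw [if_pos (mem_dbL'.1 h.md).1]
    exact h.term H hC hs hk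
  · have := (mem_dbU'.1 h.md).1
    rw [if_neg (by omega)]
    exact h.term H hC hs hk

end adds

open Classical in
/-- the units of the label `c` which avoid the sites over `z` -/
noncomputable def Uz (i : ℕ) (κ : P → ι) (K : Finset P) (z : P) (c : ι) : Finset P :=
  K.filter (fun x => κ x = c ∧ Disjoint (ns i x) (Tz z))

lemma mem_Uz {z k : P} {c : ι} : k ∈ Uz i κ K z c ↔
    k ∈ K ∧ κ k = c ∧ Disjoint (ns i k) (Tz z) := by
  classical
  unfold Uz
  rw [mem_filter]

section swp

variable (H : Gr P r) (hir : i ≤ r) (hq : NoQ P (i + 2)) (hg : ∀ m, m + 1 = i → Good P m)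
  (hκ : Split (i + 1) κ) (hM : Mat P i K psi) (hKs : K ⊆ dbL P i ∪ dbU P i)
include H hir hq hg hκ hM hKs

/-- THE SWAP of the unit of one label -/
theorem Edg.swap (hK : ∀ a ∈ T, Star i (cext (i + 1) κ a) K) (E : Edg i κ K psi T e) {z : P}
    (hz : z ∉ cuni (i + 1) κ) (h0 : 1 ≤ e z) {y v : P} (S : SD i κ z y v) {c : ι}
    (hc : c = κ y ∨ c = κ v) :
    ∃ k ∈ Uz i κ K z c, e k = 1 ∧ (∀ x ∈ Uz i κ K z c, x ≠ k → e x = 0) ∧
      ∀ k' ∈ Uz i κ K z c, Adds i (dn1 e k) k' ∧ Edg i κ K psi T (up1 (dn1 e k) k') := by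
  classical
  obtain ⟨hcard, -, hD, -, hD1, hs, h1⟩ := E.main H hir hq hg hκ hM hK
  obtain ⟨y', v', S', ey, ev, hw⟩ := E.cross H hir hq hg hκ hM hK hz h0
  -- the pair is unique
  have hyy : y' = y ∧ v' = v := by
    have h2 : y' ∈ uc z := S'.my
    have h3 : v' ∈ uc z := S'.mv
    rw [S.huc, mem_insert, mem_singleton] at h2 h3
    have c1 := S.cy
    have c2 := S.cv
    have c3 := S'.cy
    have c4 := S'.cv
    constructor
    · rcases h2 with h | h
      · exact h
      · rw [h] at c3
        omega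
    · rcases h3 with h | h
      · rw [h] at c4
        omega
      · exact h
  obtain ⟨rfl, rfl⟩ := hyy
  have ly := S.ly H
  have lv' := S.lv' H
  obtain ⟨w, hwyv, hcw, hwz⟩ : ∃ w, (w = y' ∨ w = v') ∧ c = κ w ∧ w ∈ uc z := by
    rcases hc with h | h
    · exact ⟨y', Or.inl rfl, h, S.my⟩
    · exact ⟨v', Or.inr rfl, h, S.mv⟩
  subst hcw
  have lw : lev w = i + 1 := by rcases hwyv with rfl | rfl <;> assumption
  obtain ⟨k, hkB, hkw, hkne, hkd, hnear⟩ := hw w hwyv
  have hkbN := KB_bN hkB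
  have hkK : k ∈ K := (mem_KB.1 hkB).1
  have lk := lev_bN H hir hq hg hkbN
  have ek : e k = 1 := (bN_data H hir hq hg hkbN).2.1
  have hTz : Tz z = uc y' ∪ uc v' := S.Tz
  have nsk : ∀ {x : P}, x ∈ K → (x ∈ dbL P i ∧ ns i x = uc x) ∨ (x ∈ dbU P i ∧ ns i x = dc x) := by
    intro x hx
    rcases mem_union.1 (hKs hx) with h | h
    · left
      refine ⟨h, ?_⟩
      unfold ns
      rw [if_pos (mem_dbL'.1 h).1]
    · right
      refine ⟨h, ?_⟩
      have := (mem_dbU'.1 h).1
      unfold ns
      rw [if_neg (by omega)]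
  have nlab : ∀ {x s : P}, x ∈ K → s ∈ ns i x → κ s = κ x ∧ lev s = i := by
    intro x s hx hs'
    rcases nsk hx with ⟨h, h2⟩ | ⟨h, h2⟩
    · rw [h2] at hs'
      have h3 := lev_uc H hs'
      have h4 := (mem_dbL'.1 h).1
      exact ⟨(hκ (mem_uc.1 hs') (by omega)).symm, by omega⟩
    · rw [h2] at hs'
      have h3 := lev_dc H hs'
      have h4 := (mem_dbU'.1 h).1
      exact ⟨hκ (mem_dc.1 hs') (by omega), by omega⟩
  have ulab : ∀ {w' s : P}, w' = y' ∨ w' = v' → s ∈ uc w' → κ s = κ w' := by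
    intro w' s hw' hs'
    have h3 := lev_uc H hs'
    have h4 : lev w' = i + 1 := by rcases hw' with rfl | rfl <;> assumption
    exact (hκ (mem_uc.1 hs') (by omega)).symm
  have hwne : ∀ {x : P}, x ∈ Uz i κ K z (κ w) → x ≠ w := by
    rintro x hx rfl
    obtain ⟨h2, -, h3⟩ := mem_Uz.1 hx
    rcases nsk h2 with ⟨h, h4⟩ | ⟨h, h4⟩
    · obtain ⟨s, hs'⟩ := uc_nonempty H (x := x) (by omega)
      rw [h4] at h3
      refine disjoint_left.1 h3 hs' ?_
      unfold Tz
      rw [mem_biUnion]
      exact ⟨x, hwz, hs'⟩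
    · have := (mem_dbU'.1 h).1
      omega
  have hkU : k ∈ Uz i κ K z (κ w) := by
    rw [mem_Uz]
    refine ⟨hkK, hkw, ?_⟩
    rw [hTz, disjoint_left]
    intro s hs' hs2
    have h2 : ∀ w', (w' = y' ∨ w' = v') → s ∈ uc w' → False := by
      intro w' hw' h3
      have h4 := ulab hw' h3
      have h5 := (nlab hkK hs').1
      have h6 : w' = w := by
        have hk := S.hk
        rcases hw' with rfl | rfl <;> rcases hwyv with rfl | rfl
        · rfl
        · exact absurd (h4.symm.trans (h5.trans hkw)) hk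
        · exact absurd (h4.symm.trans (h5.trans hkw)).symm hk
        · rfl
      rw [h6] at h3
      exact disjoint_left.1 hkd hs' h3
    rcases mem_union.1 hs2 with h | h
    · exact h2 y' (Or.inl rfl) h
    · exact h2 v' (Or.inr rfl) h
  have hoth : ∀ x ∈ Uz i κ K z (κ w), x ≠ k → e x = 0 := by
    intro x hx hne
    by_contra h2
    obtain ⟨h3, h4, -⟩ := mem_Uz.1 hx
    have lx : lev x ≤ i + 1 := by
      rcases nsk h3 with ⟨h, -⟩ | ⟨h, -⟩
      · have := (mem_dbL'.1 h).1
        omega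
      · have := (mem_dbU'.1 h).1
        omega
    rcases hnear x (by omega) lx h4 with h5 | h5
    · exact hwne hx h5
    · exact hne h5
  have hadd : ∀ k' ∈ Uz i κ K z (κ w), Adds i (dn1 e k) k' := by
    intro k' hk'
    obtain ⟨h3, h4, h5⟩ := mem_Uz.1 hk'
    have e0 : dn1 e k k' = 0 := by
      by_cases h : k' = k
      · rw [h, dn1_self]
      · rw [dn1_ne h]
        exact hoth k' hk' h
    have site : ∀ s ∈ ns i k', dn1 e k s = 0 ∧ s ∉ AL i (dn1 e k) ∧ s ∉ AU i (dn1 e k) := by
      intro s hs'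
      obtain ⟨l1, l2⟩ := nlab h3 hs'
      have hsk : s ≠ k := by
        rintro rfl
        rcases nsk hkK with ⟨h, -⟩ | ⟨h, -⟩
        · have := (mem_dbL'.1 h).1
          omega
        · have := (mem_dbU'.1 h).1
          omega
      refine ⟨by rw [dn1_ne hsk]; exact hs s l2, ?_, ?_⟩
      · rw [NormD_mem_AL]
        rintro ⟨-, z', h6, h7⟩
        have h8 : z' ≠ k := by
          rintro rfl
          rw [dn1_self] at h7
          omega
        rw [dn1_ne h8] at h7
        have l3 := lev_uc H (mem_uc.2 h6)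
        have l4 : κ z' = κ w := (hκ h6 (by omega)).trans (l1.trans h4)
        rcases hnear z' (by omega) (by omega) l4 with h9 | h9
        · rw [h9] at h6
          refine disjoint_left.1 h5 hs' ?_
          unfold Tz
          rw [mem_biUnion]
          exact ⟨w, hwz, mem_uc.2 h6⟩
        · exact h8 h9
      · rw [NormD_mem_AU]
        rintro ⟨-, u, h6, h7⟩
        have h8 : u ≠ k := by
          rintro rfl
          rw [dn1_self] at h7
          omega
        rw [dn1_ne h8] at h7
        have l3 := lev_uc H (mem_uc.2 h6)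
        have l4 : κ u = κ w := (hκ h6 (by omega)).symm.trans (l1.trans h4)
        rcases hnear u (by omega) (by omega) l4 with h9 | h9
        · rw [h9] at l3
          omega
        · exact h8 h9
    rcases nsk h3 with ⟨h, hn⟩ | ⟨h, hn⟩
    · rw [hn] at site
      refine Or.inl ⟨h, e0, ?_, fun x hx => (site x hx).1, fun x hx => (site x hx).2.1,
        fun x hx => (site x hx).2.2⟩
      intro q hq'
      have lq := lev_dc H hq'
      have lk' := (mem_dbL'.1 h).1
      have hqk : q ≠ k := by rintro rfl; omega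
      rw [dn1_ne hqk]
      by_contra h6
      have h7 := exc_le H E.hL (z := q) (by omega) (mem_dc.1 hq').le (by omega)
      rcases hnear k' h7 (by omega) h4 with h8 | h8
      · exact hwne hk' h8
      · rw [h8] at hq' h
        rcases (mem_KB.1 hkB).2 with ⟨-, h9⟩ | ⟨h9, -⟩
        · exact h6 (h9 q hq')
        · have := (bU_data H hir hq hg h9).1
          have := (mem_dbL'.1 h).1
          omega
    · rw [hn] at site
      refine Or.inr ⟨h, e0, ?_, fun x hx => (site x hx).1, fun x hx => (site x hx).2.1,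
        fun x hx => (site x hx).2.2⟩
      intro q hq'
      have lq := lev_uc H hq'
      have lk' := (mem_dbU'.1 h).1
      by_cases hqk : q = k
      · rw [hqk, dn1_self]
      · rw [dn1_ne hqk]
        by_contra h6
        have := (E.up H hir hq hg hκ hM hD (x := q) (by omega) (by omega)).1
        omega
  refine ⟨k, hkU, ek, hoth, fun k' hk' => ⟨hadd k' hk', ?_⟩⟩
  obtain ⟨d1, d2, d3, d4, d5⟩ := (hadd k' hk').data H
  obtain ⟨f1, f2, f3, f4, f5⟩ := (hadd k hkU).data H
  have s1 : ∑ x, up1 (dn1 e k) k' x = ∑ x, e x := by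
    have e0 : dn1 e k k' = 0 := by
      rcases hadd k' hk' with h | h
      · exact h.h0
      · exact h.h0
    have h2 := sum_up1 e0
    have h3 := sum_up1 (dn1_self e k)
    rw [up1_dn1 ek] at h3
    omega
  rw [up1_dn1 ek] at f1 f2 f3 f4 f5
  obtain ⟨k1, k2, -⟩ := mem_Uz.1 hk'
  have lk' : lev k' ≤ i + 1 ∧ lev k' + 1 ≠ i + 1 := by
    rcases nsk k1 with ⟨h, -⟩ | ⟨h, -⟩
    · have := (mem_dbL'.1 h).1
      omega
    · have := (mem_dbU'.1 h).1
      omega
  have hval : ∀ {x : P}, x ≠ k' → up1 (dn1 e k) k' x = dn1 e k x := fun h => up1_ne h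
  have hle : ∀ {x : P}, dn1 e k x ≤ e x := by
    intro x
    by_cases h : x = k
    · rw [h, dn1_self]
      omega
    · rw [dn1_ne h]
  have hfar : ∀ {x : P}, i + 2 ≤ lev x → up1 (dn1 e k) k' x = e x := by
    intro x hx
    have h2 : x ≠ k' := by rintro rfl; omega
    have h3 : x ≠ k := by rintro rfl; omega
    rw [hval h2, dn1_ne h3]
  refine ⟨d1.2 (f1.1 E.hL), d2.2 (f2.1 E.hU), d3.2 (f3.1 E.hd), ?_, ?_, ?_, ?_⟩
  · rw [Finset.eq_empty_iff_forall_notMem]
    intro y1 hy1
    rw [mem_SK] at hy1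
    obtain ⟨m1, m2, m3⟩ := hy1
    have l1 := mem_dbL'.1 m1
    have p1 := psi_low hM m1 m2
    have l2 := mem_dbU'.1 p1.1
    have n1 : y1 ≠ k' := by
      rintro rfl
      exact m2 k1
    have n2 : psi y1 ≠ k' := by
      intro h
      exact p1.2.2.2 (h ▸ k1)
    have n3 : y1 ≠ k := by
      rintro rfl
      exact m2 hkK
    have n4 : psi y1 ≠ k := by
      intro h
      exact p1.2.2.2 (h ▸ hkK)
    rcases m3.one with ⟨o1, -⟩ | ⟨-, o1⟩
    · rw [hval n1, dn1_ne n3] at o1
      have h2 := (E.low H hir hq hg hκ hM hD (x := y1) (by omega) l1.1 l1.2).2 (by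
        intro q hq'
        have h3 := m3.lo q hq'
        have lq := lev_dc H hq'
        rwa [hfar (by omega)] at h3)
      exact m2 (mem_KB.1 h2).1
    · rw [hval n2, dn1_ne n4] at o1
      have h2 := (E.up H hir hq hg hκ hM hD (x := psi y1) (by omega) (by omega)).2.1
      exact p1.2.2.2 (mem_KB.1 h2).1
  · intro a ha
    obtain ⟨q, q1, q2, q3⟩ := E.tou a ha
    refine ⟨q, q1, ?_, q3⟩
    have := (two_up H hκ q1).1
    rw [hfar (by omega)]
    exact q2
  · intro x hx hx1
    by_cases h : x = k'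
    · rw [h, k2]
      have ew : 1 ≤ e w := by rcases hwyv with rfl | rfl <;> omega
      exact E.spt w (by omega) ew
    · rw [hval h] at hx1
      exact E.spt x hx (hx1.trans hle)
  · have := E.eq
    rw [s1]
    omega

end swp

end Pool.Agent.GaussPoset.Win.K2
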